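import Pool.Agent.H26.RB.Wild

/-!
Nonzero weight: the operators whose kernel is the stabiliser of the line spanned by the first basis
vector are the same as associative algebras of dimension `m`.
-/

set_option linter.unusedSectionVars false
set_option linter.unusedVariables false

namespace Pool.Agent.H26.RB

open Matrix

section Alg

variable {F : Type*} [Field F] {m : ℕ}

/-- left multiplication by `v` on the unitization `F ⊕ F^m` of the algebra with product `μ`:
the matrix with first row zero, first column `(0, v)` and lower right block `w ↦ μ v w` -/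
def leftMat (μ : (Fin m → F) →ₗ[F] (Fin m → F) →ₗ[F] (Fin m → F)) :
    (Fin m → F) →ₗ[F] Matrix (Fin (m + 1)) (Fin (m + 1)) F where
  toFun v := Matrix.of (Fin.cons 0 fun i => Fin.cons (v i) fun j => μ v (Pi.single j 1) i)
  map_add' v w := by
    ext i j
    refine Fin.cases ?_ (fun i => ?_) i
    · simp
    · refine Fin.cases ?_ (fun j => ?_) j
      · simp
      · simp
  map_smul' c v := by
    ext i j
    refine Fin.cases ?_ (fun i => ?_) i
    · simp
    · refine Fin.cases ?_ (fun j => ?_) j
      · simp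
      · simp

variable (μ : (Fin m → F) →ₗ[F] (Fin m → F) →ₗ[F] (Fin m → F))

@[simp] lemma leftMat_zero (v : Fin m → F) (j : Fin (m + 1)) : leftMat μ v 0 j = 0 := rfl
@[simp] lemma leftMat_succ_zero (v : Fin m → F) (i : Fin m) : leftMat μ v i.succ 0 = v i := rfl
@[simp] lemma leftMat_succ_succ (v : Fin m → F) (i j : Fin m) :
    leftMat μ v i.succ j.succ = μ v (Pi.single j 1) i := rfl

/-- the lower part of the first column -/
def col : Matrix (Fin (m + 1)) (Fin (m + 1)) F →ₗ[F] (Fin m → F) where
  toFun x := fun i => x i.succ 0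
  map_add' x y := rfl
  map_smul' c x := rfl

lemma col_apply (x : Matrix (Fin (m + 1)) (Fin (m + 1)) F) (i : Fin m) : col x i = x i.succ 0 := rfl

lemma col_leftMat (v : Fin m → F) : col (leftMat μ v) = v := rfl

/-- the operator `x ↦ -lam * leftMat μ (lower part of the first column of x)` -/
def leftOp (lam : F) : Matrix (Fin (m + 1)) (Fin (m + 1)) F →ₗ[F]
    Matrix (Fin (m + 1)) (Fin (m + 1)) F :=
  -(lam • (leftMat μ ∘ₗ col))

lemma leftOp_apply (lam : F) (x : Matrix (Fin (m + 1)) (Fin (m + 1)) F) :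
    leftOp μ lam x = -(lam • leftMat μ (col x)) := rfl

lemma mu_expand (v w : Fin m → F) (i : Fin m) :
    ∑ k, μ v (Pi.single k 1) i * w k = μ v w i := by
  have h : w = ∑ k, w k • (Pi.single k 1 : Fin m → F) := by
    ext j
    simp [Finset.sum_apply, Pi.single_apply]
  conv_rhs => rw [h]
  rw [map_sum, Finset.sum_apply]
  apply Finset.sum_congr rfl
  intro k _
  rw [map_smul, Pi.smul_apply, smul_eq_mul, mul_comm]

variable {μ}

lemma leftMat_mul (hμ : ∀ a b c, μ (μ a b) c = μ a (μ b c)) (v w : Fin m → F) :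
    leftMat μ v * leftMat μ w = leftMat μ (μ v w) := by
  ext i j
  rw [Matrix.mul_apply, Fin.sum_univ_succ]
  refine Fin.cases ?_ (fun i => ?_) i
  · simp
  · refine Fin.cases ?_ (fun j => ?_) j
    · simp only [leftMat_zero, mul_zero, zero_add, leftMat_succ_zero, leftMat_succ_succ]
      exact mu_expand μ v w i
    · simp only [leftMat_zero, mul_zero, zero_add, leftMat_succ_succ, hμ]
      exact mu_expand μ v _ i

theorem leftOp_isRB (hμ : ∀ a b c, μ (μ a b) c = μ a (μ b c)) (lam : F) :
    IsRB lam (leftOp μ lam) := by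
  intro x y
  have h1 : col (leftMat μ (col x) * y) = y 0 0 • col x + μ (col x) (col y) := by
    ext i
    rw [col_apply, Matrix.mul_apply, Fin.sum_univ_succ]
    simp only [leftMat_succ_zero, leftMat_succ_succ, Pi.add_apply, Pi.smul_apply, smul_eq_mul]
    rw [mul_comm (y 0 0), ← mu_expand μ (col x) (col y) i]
    rfl
  have h2 : col (x * leftMat μ (col y)) = fun i => ∑ k : Fin m, x i.succ k.succ * col y k := by
    ext i
    rw [col_apply, Matrix.mul_apply, Fin.sum_univ_succ]
    simp
  have h3 : col (x * y) = y 0 0 • col x + fun i => ∑ k : Fin m, x i.succ k.succ * col y k := by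
    ext i
    rw [col_apply, Matrix.mul_apply, Fin.sum_univ_succ]
    simp only [Pi.add_apply, Pi.smul_apply, smul_eq_mul]
    rw [mul_comm (y 0 0)]
    rfl
  rw [leftOp_apply, leftOp_apply, leftOp_apply]
  have h4 : col (-(lam • leftMat μ (col x)) * y + x * -(lam • leftMat μ (col y)) +
      lam • (x * y)) = -(lam • μ (col x) (col y)) := by
    simp only [neg_mul, mul_neg, smul_mul_assoc, mul_smul_comm, map_add, map_neg, map_smul, h1, h2,
      h3, smul_add]
    abel
  rw [h4, map_neg, map_smul]
  simp only [neg_mul, mul_neg, smul_mul_assoc, mul_smul_comm, leftMat_mul hμ, neg_neg, smul_neg]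

lemma leftOp_eq_zero {lam : F} (hlam : lam ≠ 0) (x : Matrix (Fin (m + 1)) (Fin (m + 1)) F) :
    leftOp μ lam x = 0 ↔ ∀ i : Fin m, x i.succ 0 = 0 := by
  rw [leftOp_apply, neg_eq_zero, smul_eq_zero]
  constructor
  · rintro (h | h)
    · exact absurd h hlam
    · intro i
      have := congrArg col h
      rw [col_leftMat, map_zero] at this
      exact congrFun this i
  · intro h
    right
    have : col x = 0 := by ext i; exact h i
    rw [this, map_zero]

lemma leftOp_diagonal (lam : F) (d : Fin (m + 1) → F) : leftOp μ lam (Matrix.diagonal d) = 0 := by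
  rw [leftOp_apply]
  have : col (Matrix.diagonal d) = 0 := by
    ext i
    rw [col_apply, Matrix.diagonal_apply_ne _ (Fin.succ_ne_zero i)]
    rfl
  rw [this, map_zero, smul_zero, neg_zero]

/-- matrices with given first column -/
def colMat : (Fin m → F) →ₗ[F] Matrix (Fin (m + 1)) (Fin (m + 1)) F where
  toFun v := Matrix.of (Fin.cons 0 fun i => Fin.cons (v i) fun _ => 0)
  map_add' v w := by
    ext i j
    refine Fin.cases ?_ (fun i => ?_) i
    · simp
    · refine Fin.cases ?_ (fun j => ?_) j
      · simp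
      · simp
  map_smul' c v := by
    ext i j
    refine Fin.cases ?_ (fun i => ?_) i
    · simp
    · refine Fin.cases ?_ (fun j => ?_) j
      · simp
      · simp

lemma col_colMat (v : Fin m → F) : col (colMat v) = v := rfl

lemma leftOp_colMat (lam : F) (v : Fin m → F) : leftOp μ lam (colMat v) = -(lam • leftMat μ v) := by
  rw [leftOp_apply, col_colMat]

/-- an equivalence by an automorphism or anti-automorphism gives a linear bijection of algebras -/
lemma exists_f {μ' : (Fin m → F) →ₗ[F] (Fin m → F) →ₗ[F] (Fin m → F)} {lam : F} (hlam : lam ≠ 0)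
    (φ : Matrix (Fin (m + 1)) (Fin (m + 1)) F ≃ₗ[F] Matrix (Fin (m + 1)) (Fin (m + 1)) F)
    (h : ∀ x, leftOp μ' lam (φ x) = φ (leftOp μ lam x)) :
    ∃ f : (Fin m → F) ≃ₗ[F] (Fin m → F), ∀ v, φ (leftMat μ v) = leftMat μ' (f v) := by
  have h1 : ∀ v, φ (leftMat μ v) = leftMat μ' (col (φ (colMat v))) := by
    intro v
    have h2 := h (colMat v)
    rw [leftOp_colMat, leftOp_apply, map_neg, neg_inj, map_smul] at h2
    exact (smul_right_injective _ hlam h2).symm
  let f0 : (Fin m → F) →ₗ[F] (Fin m → F) := col ∘ₗ (φ.toLinearMap ∘ₗ colMat)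
  have hinj : Function.Injective f0 := by
    rw [injective_iff_map_eq_zero]
    intro v hv
    have h2 := h1 v
    rw [show col (φ (colMat v)) = 0 from hv, map_zero] at h2
    have h3 : leftMat μ v = 0 := by
      apply φ.injective
      rw [h2, map_zero]
    have h4 := congrArg col h3
    rwa [col_leftMat, map_zero] at h4
  exact ⟨LinearEquiv.ofInjectiveEndo f0 hinj, h1⟩

/-- anti-automorphisms do not preserve the stabiliser of a line in dimension at least three -/
lemma anti_ker (hm : 2 ≤ m)
    (φ : Matrix (Fin (m + 1)) (Fin (m + 1)) F ≃ₗ[F] Matrix (Fin (m + 1)) (Fin (m + 1)) F)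
    (hφ : ∀ x y, φ (x * y) = φ y * φ x) (h : ∀ x, col x = 0 → col (φ x) = 0) : False := by
  obtain ⟨G, H, hGH, hHG, hG⟩ := anti_inner φ hφ
  obtain ⟨i0, hi0⟩ := col_ne_zero hGH (0 : Fin (m + 1))
  have h1 : ∀ (k : Fin m) (j : Fin (m + 1)), j ≠ 0 → G k.succ j = 0 := by
    intro k j hj
    have h2 := h (Matrix.single i0 j 1) (by
      ext i
      rw [col_apply, Matrix.single_apply_of_ne]
      · rfl
      · rintro ⟨_, h3⟩
        exact hj h3)
    have h3 := congrFun h2 k
    rw [col_apply, hG, Matrix.transpose_single, conj_single] at h3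
    rcases mul_eq_zero.mp h3 with h4 | h4
    · exact h4
    · exact absurd h4 hi0
  have h2 : ∀ i j : Fin (m + 1), j ≠ 0 → (H * G) i j = H i 0 * G 0 j := by
    intro i j hj
    rw [Matrix.mul_apply, Fin.sum_univ_succ, Finset.sum_eq_zero, add_zero]
    intro k _
    rw [h1 k j hj, mul_zero]
  rw [hHG] at h2
  let p : Fin (m + 1) := ⟨1, by omega⟩
  let q : Fin (m + 1) := ⟨2, by omega⟩
  have hp : p ≠ 0 := by intro h3; have := congrArg Fin.val h3; simp [p] at this
  have hq : q ≠ 0 := by intro h3; have := congrArg Fin.val h3; simp [q] at this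
  have hpq : p ≠ q := by intro h3; have := congrArg Fin.val h3; simp [p, q] at this
  have e1 := h2 p p hp
  have e2 := h2 q q hq
  have e3 := h2 p q hq
  rw [Matrix.one_apply_eq] at e1 e2
  rw [Matrix.one_apply_ne hpq] at e3
  rcases mul_eq_zero.mp e3.symm with h3 | h3
  · rw [h3, zero_mul] at e1
    exact one_ne_zero e1
  · rw [h3, mul_zero] at e2
    exact one_ne_zero e2

lemma small_comm (hm : m < 2) (μ' : (Fin m → F) →ₗ[F] (Fin m → F) →ₗ[F] (Fin m → F))
    (a b : Fin m → F) : μ' a b = μ' b a := by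
  have hc : m = 0 ∨ m = 1 := by omega
  rcases hc with rfl | rfl
  · exact Subsingleton.elim _ _
  · have ha : a = a 0 • (Pi.single 0 1 : Fin 1 → F) := by
      ext j
      rw [Subsingleton.elim j 0]
      simp
    have hb : b = b 0 • (Pi.single 0 1 : Fin 1 → F) := by
      ext j
      rw [Subsingleton.elim j 0]
      simp
    rw [ha, hb]
    simp only [map_smul, LinearMap.smul_apply]
    rw [smul_comm]

/-- the kernel and the identity exclude the sign symmetry -/
theorem leftOp_equiv_imp {μ' : (Fin m → F) →ₗ[F] (Fin m → F) →ₗ[F] (Fin m → F)}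
    (hμ : ∀ a b c, μ (μ a b) c = μ a (μ b c)) (hμ' : ∀ a b c, μ' (μ' a b) c = μ' a (μ' b c))
    {lam : F} (hlam : lam ≠ 0) (h : RBEquivalent lam (leftOp μ lam) (leftOp μ' lam)) :
    ∃ f : (Fin m → F) ≃ₗ[F] (Fin m → F), ∀ v w, f (μ v w) = μ' (f v) (f w) := by
  obtain ⟨φ, h1, h2⟩ := h
  have h3 : ∀ x, leftOp μ' lam (φ x) = φ (leftOp μ lam x) := by
    rcases h2 with h2 | h2 | ⟨h0, _⟩
    · exact h2
    · exfalso
      have hφ1 : φ 1 = 1 := by
        obtain ⟨u, hu⟩ := φ.surjective 1
        rcases h1 with h1 | h1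
        · have := h1 1 u
          rw [one_mul, hu, mul_one] at this
          exact this.symm
        · have := h1 u 1
          rw [mul_one, hu, mul_one] at this
          exact this.symm
      have h4 := h2 1
      rw [hφ1, ← Matrix.diagonal_one, leftOp_diagonal, leftOp_diagonal, Matrix.diagonal_one,
        sub_zero, map_neg, map_smul, hφ1] at h4
      have := congrFun (congrFun h4 0) 0
      simp at this
      exact hlam this
    · exact absurd h0 hlam
  obtain ⟨f, hf⟩ := exists_f hlam φ h3
  rcases h1 with h1 | h1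
  · refine ⟨f, ?_⟩
    intro v w
    have h4 : leftMat μ' (f (μ v w)) = leftMat μ' (μ' (f v) (f w)) := by
      rw [← hf, ← leftMat_mul hμ, h1, hf, hf, leftMat_mul hμ']
    have h5 := congrArg col h4
    rwa [col_leftMat, col_leftMat] at h5
  · have h6 : ∀ v w, f (μ v w) = μ' (f w) (f v) := by
      intro v w
      have h4 : leftMat μ' (f (μ v w)) = leftMat μ' (μ' (f w) (f v)) := by
        rw [← hf, ← leftMat_mul hμ, h1, hf, hf, leftMat_mul hμ']
      have h5 := congrArg col h4
      rwa [col_leftMat, col_leftMat] at h5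
    by_cases hm : 2 ≤ m
    · exfalso
      apply anti_ker hm φ h1
      intro x hx
      have h7 : leftOp μ' lam (φ x) = 0 := by
        rw [h3, leftOp_apply, hx, map_zero, smul_zero, neg_zero, map_zero]
      ext i
      exact (leftOp_eq_zero hlam (φ x)).mp h7 i
    · refine ⟨f, ?_⟩
      intro v w
      rw [h6]
      exact small_comm (by omega) μ' _ _

lemma leftMat_mulVec (v : Fin m → F) (w : Fin (m + 1) → F) :
    leftMat μ v *ᵥ w = Fin.cons 0 (w 0 • v + μ v (Fin.tail w)) := by
  ext i
  rw [Matrix.mulVec, dotProduct]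
  refine Fin.cases ?_ (fun i => ?_) i
  · simp
  · rw [Fin.sum_univ_succ]
    simp only [leftMat_succ_zero, leftMat_succ_succ, Fin.cons_succ, Pi.add_apply, Pi.smul_apply,
      smul_eq_mul]
    rw [mul_comm (w 0), ← mu_expand μ v (Fin.tail w) i]
    rfl

/-- extension of a linear map of `F^m` to `F ⊕ F^m` -/
def extMap (f : (Fin m → F) →ₗ[F] (Fin m → F)) : (Fin (m + 1) → F) →ₗ[F] (Fin (m + 1) → F) where
  toFun w := Fin.cons (w 0) (f (Fin.tail w))
  map_add' v w := by
    ext i
    refine Fin.cases ?_ (fun i => ?_) i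
    · simp
    · simp only [Fin.cons_succ, Pi.add_apply]
      rw [show (Fin.tail (v + w) : Fin m → F) = Fin.tail v + Fin.tail w from rfl, map_add]
      rfl
  map_smul' c v := by
    ext i
    refine Fin.cases ?_ (fun i => ?_) i
    · simp
    · simp only [Fin.cons_succ, Pi.smul_apply, RingHom.id_apply]
      rw [show (Fin.tail (c • v) : Fin m → F) = c • Fin.tail v from rfl, map_smul]
      rfl

lemma extMap_apply (f : (Fin m → F) →ₗ[F] (Fin m → F)) (w : Fin (m + 1) → F) :
    extMap f w = Fin.cons (w 0) (f (Fin.tail w)) := rfl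

lemma extMap_comp (f g : (Fin m → F) →ₗ[F] (Fin m → F)) (h : f ∘ₗ g = LinearMap.id) :
    (extMap f ∘ₗ extMap g) = LinearMap.id := by
  apply LinearMap.ext
  intro w
  rw [LinearMap.comp_apply, extMap_apply, extMap_apply]
  have h1 : f (Fin.tail (Fin.cons (w 0) (g (Fin.tail w)) : Fin (m + 1) → F)) = Fin.tail w := by
    have := congrArg (fun e : (Fin m → F) →ₗ[F] (Fin m → F) => e (Fin.tail w)) h
    exact this
  rw [h1]
  ext i
  refine Fin.cases ?_ (fun i => ?_) i <;> rfl

/-- conjugation by an invertible matrix -/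
def conjEquiv {ι : Type*} [Fintype ι] [DecidableEq ι] (G H : Matrix ι ι F) (hGH : G * H = 1)
    (hHG : H * G = 1) : Matrix ι ι F ≃ₗ[F] Matrix ι ι F where
  toFun := fun x => G * x * H
  invFun := fun x => H * x * G
  map_add' := fun x y => by rw [Matrix.mul_add, Matrix.add_mul]
  map_smul' := fun c x => by
    rw [RingHom.id_apply, Matrix.mul_smul, Matrix.smul_mul]
  left_inv := fun x => by
    calc H * (G * x * H) * G = (H * G) * x * (H * G) := by simp only [Matrix.mul_assoc]
      _ = x := by rw [hHG, Matrix.one_mul, Matrix.mul_one]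
  right_inv := fun x => by
    calc G * (H * x * G) * H = (G * H) * x * (G * H) := by simp only [Matrix.mul_assoc]
      _ = x := by rw [hGH, Matrix.one_mul, Matrix.mul_one]

lemma conjEquiv_apply {ι : Type*} [Fintype ι] [DecidableEq ι] (G H : Matrix ι ι F)
    (hGH : G * H = 1) (hHG : H * G = 1) (x : Matrix ι ι F) :
    conjEquiv G H hGH hHG x = G * x * H := rfl

lemma conjEquiv_mul {ι : Type*} [Fintype ι] [DecidableEq ι] (G H : Matrix ι ι F)
    (hGH : G * H = 1) (hHG : H * G = 1) (x y : Matrix ι ι F) :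
    conjEquiv G H hGH hHG (x * y) = conjEquiv G H hGH hHG x * conjEquiv G H hGH hHG y := by
  show G * (x * y) * H = G * x * H * (G * y * H)
  calc G * (x * y) * H = G * x * 1 * y * H := by
        rw [Matrix.mul_one]; simp only [Matrix.mul_assoc]
    _ = G * x * (H * G) * y * H := by rw [hHG]
    _ = G * x * H * (G * y * H) := by simp only [Matrix.mul_assoc]

theorem leftOp_imp_equiv {μ' : (Fin m → F) →ₗ[F] (Fin m → F) →ₗ[F] (Fin m → F)} {lam : F}
    (f : (Fin m → F) ≃ₗ[F] (Fin m → F)) (hf : ∀ v w, f (μ v w) = μ' (f v) (f w)) :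
    RBEquivalent lam (leftOp μ lam) (leftOp μ' lam) := by
  let G := LinearMap.toMatrix' (extMap f.toLinearMap)
  let H := LinearMap.toMatrix' (extMap f.symm.toLinearMap)
  have hGH : G * H = 1 := by
    rw [← LinearMap.toMatrix'_comp, extMap_comp, LinearMap.toMatrix'_id]
    ext v; simp
  have hHG : H * G = 1 := by
    rw [← LinearMap.toMatrix'_comp, extMap_comp, LinearMap.toMatrix'_id]
    ext v; simp
  have hG : ∀ w, G *ᵥ w = Fin.cons (w 0) (f (Fin.tail w)) := by
    intro w
    show LinearMap.toMatrix' (extMap f.toLinearMap) *ᵥ w = _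
    rw [LinearMap.toMatrix'_mulVec]
    rfl
  have hH : ∀ w, H *ᵥ w = Fin.cons (w 0) (f.symm (Fin.tail w)) := by
    intro w
    show LinearMap.toMatrix' (extMap f.symm.toLinearMap) *ᵥ w = _
    rw [LinearMap.toMatrix'_mulVec]
    rfl
  have h1 : ∀ v, G * leftMat μ v * H = leftMat μ' (f v) := by
    intro v
    apply Matrix.mulVec_injective
    ext1 w
    rw [← Matrix.mulVec_mulVec, ← Matrix.mulVec_mulVec, hH, leftMat_mulVec, hG, leftMat_mulVec]
    have e1 : (Fin.cons (w 0) (f.symm (Fin.tail w)) : Fin (m + 1) → F) 0 = w 0 := rfl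
    have e2 : Fin.tail (Fin.cons (w 0) (f.symm (Fin.tail w)) : Fin (m + 1) → F) =
        f.symm (Fin.tail w) := rfl
    rw [e1, e2]
    have e3 : Fin.tail (Fin.cons 0 (w 0 • v + μ v (f.symm (Fin.tail w))) : Fin (m + 1) → F) =
        w 0 • v + μ v (f.symm (Fin.tail w)) := rfl
    rw [e3, map_add, map_smul, hf, LinearEquiv.apply_symm_apply]
    rfl
  have h2 : ∀ x : Matrix (Fin (m + 1)) (Fin (m + 1)) F, col (G * x * H) = f (col x) := by
    intro x
    have e0 : ∀ y : Matrix (Fin (m + 1)) (Fin (m + 1)) F,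
        col y = Fin.tail (y *ᵥ (Pi.single 0 1)) := by
      intro y
      ext i
      rw [Matrix.mulVec_single_one]
      rfl
    rw [e0 (G * x * H), ← Matrix.mulVec_mulVec, ← Matrix.mulVec_mulVec, hH, hG, e0 x]
    have e1 : (Fin.cons ((Pi.single 0 1 : Fin (m + 1) → F) 0)
        (f.symm (Fin.tail (Pi.single 0 1 : Fin (m + 1) → F))) : Fin (m + 1) → F) =
        Pi.single 0 1 := by
      have e2 : Fin.tail (Pi.single 0 1 : Fin (m + 1) → F) = 0 := by
        ext i
        simp [Fin.tail]
      rw [e2, map_zero]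
      ext i
      refine Fin.cases ?_ (fun i => ?_) i
      · simp
      · simp
    rw [e1]
    rfl
  refine ⟨conjEquiv G H hGH hHG, Or.inl (conjEquiv_mul G H hGH hHG), Or.inl ?_⟩
  intro x
  rw [conjEquiv_apply, conjEquiv_apply, leftOp_apply, leftOp_apply, h2, ← h1, Matrix.mul_neg,
    Matrix.neg_mul, Matrix.mul_smul, Matrix.smul_mul]

end Alg

end Pool.Agent.H26.RB
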