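import Pool.Agent.H26.RB.Alg

/-!
Every Rota-Baxter operator of nonzero weight whose kernel is the stabiliser of the line spanned by
the first basis vector comes from an associative algebra.
-/

set_option linter.unusedSectionVars false
set_option linter.unusedVariables false

namespace Pool.Agent.H26.RB

open Matrix

section Complete

variable {F : Type*} [Field F] {m : ℕ}

theorem complete {lam : F} (hlam : lam ≠ 0)
    (R : Matrix (Fin (m + 1)) (Fin (m + 1)) F →ₗ[F] Matrix (Fin (m + 1)) (Fin (m + 1)) F)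
    (hR : IsRB lam R) (hker : ∀ x, R x = 0 ↔ ∀ i : Fin m, x i.succ 0 = 0) :
    ∃ μ : (Fin m → F) →ₗ[F] (Fin m → F) →ₗ[F] (Fin m → F),
      (∀ a b c, μ (μ a b) c = μ a (μ b c)) ∧ RBEquivalent lam R (leftOp μ lam) := by
  have hker' : ∀ x, R x = 0 ↔ col x = 0 := by
    intro x
    rw [hker]
    constructor
    · intro h; ext i; exact h i
    · intro h i; exact congrFun h i
  have hR1 : R 1 = 0 := by
    rw [hker]
    intro i
    exact Matrix.one_apply_ne (Fin.succ_ne_zero i)
  -- R (R x + lam x) = 0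
  have hR2 : ∀ x, R (R x) = -(lam • R x) := by
    intro x
    have h := hR x 1
    rw [hR1, mul_zero, mul_one, mul_zero, mul_one, add_zero, map_add, map_smul] at h
    exact eq_neg_of_add_eq_zero_left h.symm
  have hcolR : ∀ x, col (R x) = -(lam • col x) := by
    intro x
    have h1 : R (R x + lam • x) = 0 := by
      rw [map_add, map_smul, hR2]
      abel
    rw [hker', map_add, map_smul] at h1
    exact eq_neg_of_add_eq_zero_left h1
  -- the section a
  let a : (Fin m → F) →ₗ[F] Matrix (Fin (m + 1)) (Fin (m + 1)) F := (-lam⁻¹) • (R ∘ₗ colMat)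
  have ha : ∀ v, a v = (-lam⁻¹) • R (colMat v) := fun v => rfl
  have hcola : ∀ v, col (a v) = v := by
    intro v
    rw [ha, map_smul, hcolR, col_colMat, smul_neg, neg_smul, neg_neg, smul_smul,
      inv_mul_cancel₀ hlam, one_smul]
  have hRa : ∀ x, R x = -(lam • a (col x)) := by
    intro x
    have h1 : R (x - colMat (col x)) = 0 := by
      rw [hker', map_sub, col_colMat, sub_self]
    rw [map_sub, sub_eq_zero] at h1
    rw [h1, ha, neg_smul, smul_neg, neg_neg, smul_smul, mul_inv_cancel₀ hlam, one_smul]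
  have hmul : ∀ v w, a v * a w = a (col (a v * a w)) := by
    intro v w
    obtain ⟨z, hz⟩ : ∃ z, a v * a w = R z := by
      refine ⟨(lam⁻¹ * lam⁻¹) • (R (colMat v) * colMat w + colMat v * R (colMat w) +
        lam • (colMat v * colMat w)), ?_⟩
      rw [map_smul, ← hR, ha, ha, Matrix.smul_mul, Matrix.mul_smul, smul_smul]
      congr 1
      ring
    have h1 := hRa z
    rw [← hz] at h1
    have h2 := congrArg col h1
    rw [map_neg, map_smul, hcola] at h2
    rw [h2, map_neg, map_smul]
    exact h1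
  let μ : (Fin m → F) →ₗ[F] (Fin m → F) →ₗ[F] (Fin m → F) :=
    LinearMap.mk₂ F (fun v w => col (a v * a w))
      (by intro v v' w; rw [map_add, add_mul, map_add])
      (by intro c v w; rw [map_smul, Matrix.smul_mul, map_smul])
      (by intro v w w'; rw [map_add, mul_add, map_add])
      (by intro c v w; rw [map_smul, Matrix.mul_smul, map_smul])
  have hμ : ∀ v w, μ v w = col (a v * a w) := fun v w => rfl
  have haμ : ∀ v w, a (μ v w) = a v * a w := fun v w => (hmul v w).symm
  refine ⟨μ, ?_, ?_⟩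
  · intro u v w
    rw [hμ (μ u v) w, hμ u (μ v w), haμ, haμ, mul_assoc]
  · -- the change of basis
    let G : Matrix (Fin (m + 1)) (Fin (m + 1)) F :=
      Matrix.of (Fin.cons (Fin.cons 1 fun j => a (Pi.single j 1) 0 0)
        (fun i => Fin.cons 0 fun j => if i = j then 1 else 0))
    let H : Matrix (Fin (m + 1)) (Fin (m + 1)) F :=
      Matrix.of (Fin.cons (Fin.cons 1 fun j => -a (Pi.single j 1) 0 0)
        (fun i => Fin.cons 0 fun j => if i = j then 1 else 0))
    have g00 : G 0 0 = 1 := rfl
    have g0s : ∀ j : Fin m, G 0 j.succ = a (Pi.single j 1) 0 0 := fun j => rfl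
    have gs0 : ∀ i : Fin m, G i.succ 0 = 0 := fun i => rfl
    have gss : ∀ i j : Fin m, G i.succ j.succ = if i = j then 1 else 0 := fun i j => rfl
    have h00 : H 0 0 = 1 := rfl
    have h0s : ∀ j : Fin m, H 0 j.succ = -a (Pi.single j 1) 0 0 := fun j => rfl
    have hs0 : ∀ i : Fin m, H i.succ 0 = 0 := fun i => rfl
    have hss : ∀ i j : Fin m, H i.succ j.succ = if i = j then 1 else 0 := fun i j => rfl
    have hGH : G * H = 1 := by
      ext i j
      rw [Matrix.mul_apply, Fin.sum_univ_succ]
      refine Fin.cases ?_ (fun i => ?_) i <;> refine Fin.cases ?_ (fun j => ?_) j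
      · simp [g00, g0s, h00, hs0]
      · simp [g00, g0s, h0s, hss, Matrix.one_apply]
        exact (Fin.succ_ne_zero j).symm
      · simp [gs0, gss, hs0]
      · simp [gs0, gss, hss, Matrix.one_apply]
    have hHG : H * G = 1 := by
      exact mul_eq_one_comm.mp hGH
    have hα : ∀ v, a v 0 0 = ∑ j, a (Pi.single j 1) 0 0 * v j := by
      intro v
      have h : v = ∑ k, v k • (Pi.single k 1 : Fin m → F) := by
        ext j
        simp [Finset.sum_apply, Pi.single_apply]
      conv_lhs => rw [h]
      rw [map_sum, Matrix.sum_apply]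
      apply Finset.sum_congr rfl
      intro k _
      rw [map_smul, Matrix.smul_apply, smul_eq_mul, mul_comm]
    have hcolmul : ∀ (x : Matrix (Fin (m + 1)) (Fin (m + 1)) F), col (H * x * G) = col x := by
      intro x
      ext i
      rw [col_apply, Matrix.mul_apply, Fin.sum_univ_succ]
      simp only [g00, gs0, mul_one, mul_zero, Finset.sum_const_zero, add_zero]
      rw [Matrix.mul_apply, Fin.sum_univ_succ]
      simp [hs0, hss, col_apply]
    -- conjugation of a v
    have hconj : ∀ v, H * a v * G = leftMat μ v := by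
      intro v
      -- the columns of a v * G
      have c0 : ∀ k, (a v * G) k 0 = a v k 0 := by
        intro k
        rw [Matrix.mul_apply, Fin.sum_univ_succ]
        simp [g00, gs0]
      have cs : ∀ k (j : Fin m), (a v * G) k j.succ = a (μ v (Pi.single j 1)) k 0 := by
        intro k j
        rw [haμ, Matrix.mul_apply, Matrix.mul_apply, Fin.sum_univ_succ, Fin.sum_univ_succ, g0s]
        congr 1
        apply Finset.sum_congr rfl
        intro l _
        rw [gss]
        have := congrFun (hcola (Pi.single j 1)) l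
        rw [col_apply] at this
        rw [this, Pi.single_apply]
      -- applying H to a vector (a w) e_0
      have hrow0 : ∀ w, ∑ k, H 0 k * a w k 0 = 0 := by
        intro w
        rw [Fin.sum_univ_succ, h00, one_mul, hα]
        have : ∑ i : Fin m, H 0 i.succ * a w i.succ 0 =
            -∑ j, a (Pi.single j 1) 0 0 * w j := by
          rw [← Finset.sum_neg_distrib]
          apply Finset.sum_congr rfl
          intro j _
          rw [h0s]
          have := congrFun (hcola w) j
          rw [col_apply] at this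
          rw [this]
          ring
        rw [this]
        ring
      have hrows : ∀ w (i : Fin m), ∑ k, H i.succ k * a w k 0 = w i := by
        intro w i
        rw [Fin.sum_univ_succ, hs0, zero_mul, zero_add]
        simp only [hss, ite_mul, one_mul, zero_mul, Finset.sum_ite_eq, Finset.mem_univ, if_true]
        exact congrFun (hcola w) i
      rw [Matrix.mul_assoc]
      ext i j
      rw [Matrix.mul_apply]
      refine Fin.cases ?_ (fun i => ?_) i <;> refine Fin.cases ?_ (fun j => ?_) j
      · simp only [c0, leftMat_zero]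
        exact hrow0 v
      · simp only [cs, leftMat_zero]
        exact hrow0 _
      · simp only [c0, leftMat_succ_zero]
        exact hrows v i
      · simp only [cs, leftMat_succ_succ]
        exact hrows _ i
    refine ⟨conjEquiv H G hHG hGH, Or.inl (conjEquiv_mul H G hHG hGH), Or.inl ?_⟩
    intro x
    rw [conjEquiv_apply, conjEquiv_apply, leftOp_apply, hcolmul, hRa x, Matrix.mul_neg,
      Matrix.neg_mul, Matrix.mul_smul, Matrix.smul_mul, hconj]

/-- bilinear products on `F^m` -/
abbrev Mult (F : Type*) [Field F] (m : ℕ) : Type _ :=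
  (Fin m → F) →ₗ[F] (Fin m → F) →ₗ[F] (Fin m → F)

/-- linear operators on `M_{m+1}(F)` -/
abbrev Oper (F : Type*) [Field F] (m : ℕ) : Type _ :=
  Matrix (Fin (m + 1)) (Fin (m + 1)) F →ₗ[F] Matrix (Fin (m + 1)) (Fin (m + 1)) F

/-- the product is associative -/
def Assoc (μ : Mult F m) : Prop := ∀ a b c, μ (μ a b) c = μ a (μ b c)

/-- the two algebras are isomorphic -/
def Isomorphic (μ μ' : Mult F m) : Prop :=
  ∃ f : (Fin m → F) ≃ₗ[F] (Fin m → F), ∀ v w, f (μ v w) = μ' (f v) (f w)

/-- the kernel of `R` is the stabiliser of the line spanned by the basis vector `e_0` -/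
def KerIsStab (R : Oper F m) : Prop := ∀ x, R x = 0 ↔ ∀ i : Fin m, x i.succ 0 = 0

/-- `R` annihilates the diagonal matrices -/
def KillsDiagonal (R : Oper F m) : Prop := ∀ d, R (Matrix.diagonal d) = 0

theorem algebras' (lam : F) (hlam : lam ≠ 0) (m : ℕ) :
    (∀ μ : Mult F m, Assoc μ →
        IsRB lam (leftOp μ lam) ∧ KillsDiagonal (leftOp μ lam) ∧ KerIsStab (leftOp μ lam)) ∧
    (∀ R : Oper F m, IsRB lam R → KerIsStab R →
        ∃ μ : Mult F m, Assoc μ ∧ RBEquivalent lam R (leftOp μ lam)) ∧
    (∀ μ μ' : Mult F m, Assoc μ → Assoc μ' →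
        (RBEquivalent lam (leftOp μ lam) (leftOp μ' lam) ↔ Isomorphic μ μ')) :=
  ⟨fun μ hμ => ⟨leftOp_isRB hμ lam, leftOp_diagonal lam, leftOp_eq_zero hlam⟩,
    fun R hR hker => complete hlam R hR hker,
    fun μ μ' hμ hμ' => ⟨leftOp_equiv_imp hμ hμ' hlam, fun ⟨f, hf⟩ => leftOp_imp_equiv f hf⟩⟩

/-- summary -/
theorem algebras (lam : F) (hlam : lam ≠ 0) (m : ℕ) :
    (∀ μ : (Fin m → F) →ₗ[F] (Fin m → F) →ₗ[F] (Fin m → F),
      (∀ a b c, μ (μ a b) c = μ a (μ b c)) →
        IsRB lam (leftOp μ lam) ∧ (∀ d, leftOp μ lam (Matrix.diagonal d) = 0) ∧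
        ∀ x, leftOp μ lam x = 0 ↔ ∀ i : Fin m, x i.succ 0 = 0) ∧
    (∀ R : Matrix (Fin (m + 1)) (Fin (m + 1)) F →ₗ[F] Matrix (Fin (m + 1)) (Fin (m + 1)) F,
      IsRB lam R → (∀ x, R x = 0 ↔ ∀ i : Fin m, x i.succ 0 = 0) →
        ∃ μ : (Fin m → F) →ₗ[F] (Fin m → F) →ₗ[F] (Fin m → F),
          (∀ a b c, μ (μ a b) c = μ a (μ b c)) ∧ RBEquivalent lam R (leftOp μ lam)) ∧
    (∀ μ μ' : (Fin m → F) →ₗ[F] (Fin m → F) →ₗ[F] (Fin m → F),
      (∀ a b c, μ (μ a b) c = μ a (μ b c)) → (∀ a b c, μ' (μ' a b) c = μ' a (μ' b c)) →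
        (RBEquivalent lam (leftOp μ lam) (leftOp μ' lam) ↔
          ∃ f : (Fin m → F) ≃ₗ[F] (Fin m → F), ∀ v w, f (μ v w) = μ' (f v) (f w))) :=
  ⟨fun μ hμ => ⟨leftOp_isRB hμ lam, leftOp_diagonal lam, leftOp_eq_zero hlam⟩,
    fun R hR hker => complete hlam R hR hker,
    fun μ μ' hμ hμ' => ⟨leftOp_equiv_imp hμ hμ' hlam, fun ⟨f, hf⟩ => leftOp_imp_equiv f hf⟩⟩

end Complete

end Pool.Agent.H26.RB
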