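import Mathlib

/-!
Rota-Baxter operators on matrix algebras which preserve the diagonal: basic definitions and the
family `op` of operators on matrices indexed by `Fin 4 ⊕ T`.
-/

set_option linter.unusedSectionVars false
set_option linter.unusedVariables false

namespace Pool.Agent.H26.RB

open Matrix

/-- `R` is a Rota-Baxter operator of weight `lam` on the algebra `A`. -/
def IsRB {F A : Type*} [Field F] [Ring A] [Algebra F A] (lam : F) (R : A →ₗ[F] A) : Prop :=
  ∀ x y : A, R x * R y = R (R x * y + x * R y + lam • (x * y))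

/-- `R` maps diagonal matrices to diagonal matrices. -/
def PreservesDiagonal {F ι : Type*} [Field F] [DecidableEq ι]
    (R : Matrix ι ι F →ₗ[F] Matrix ι ι F) : Prop :=
  ∀ d : ι → F, ∃ d' : ι → F, R (Matrix.diagonal d) = Matrix.diagonal d'

/-- The usual equivalence of Rota-Baxter operators of weight `lam` on `A`: conjugation by
automorphisms and anti-automorphisms of `A`, the substitution `R ↦ -lam - R` and, if `lam = 0`,
multiplication with nonzero scalars. -/
def RBEquivalent {F A : Type*} [Field F] [Ring A] [Algebra F A] (lam : F)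
    (R R' : A →ₗ[F] A) : Prop :=
  ∃ φ : A ≃ₗ[F] A,
    ((∀ x y : A, φ (x * y) = φ x * φ y) ∨ (∀ x y : A, φ (x * y) = φ y * φ x)) ∧
    ((∀ x : A, R' (φ x) = φ (R x)) ∨ (∀ x : A, R' (φ x) = φ (-(lam • x) - R x)) ∨
      (lam = 0 ∧ ∃ c : F, c ≠ 0 ∧ ∀ x : A, R' (φ x) = c • φ (R x)))

section Family

variable {F T : Type*} [Field F] [Fintype T] [DecidableEq T]

/-- position of an index in the flag -/
def key : Fin 4 ⊕ T → ℕ := Sum.elim (fun i => i.val) (fun _ => 4)

@[simp] lemma key_inl (i : Fin 4) : key (T := T) (Sum.inl i) = i.val := rfl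
@[simp] lemma key_inr (t : T) : key (Sum.inr t : Fin 4 ⊕ T) = 4 := rfl

/-- strictly lower part of a matrix with respect to `key` -/
def low : Matrix (Fin 4 ⊕ T) (Fin 4 ⊕ T) F →ₗ[F] Matrix (Fin 4 ⊕ T) (Fin 4 ⊕ T) F where
  toFun x := Matrix.of fun i j => if key j < key i then x i j else 0
  map_add' x y := by
    ext i j
    simp only [Matrix.of_apply, Matrix.add_apply]
    split_ifs <;> simp
  map_smul' c x := by
    ext i j
    simp only [Matrix.of_apply, Matrix.smul_apply, RingHom.id_apply]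
    split_ifs <;> simp

lemma low_apply (x : Matrix (Fin 4 ⊕ T) (Fin 4 ⊕ T) F) (i j : Fin 4 ⊕ T) :
    low x i j = if key j < key i then x i j else 0 := rfl

/-- the matrix `r`, put in the block `T, T` -/
def emb : Matrix T T F →ₗ[F] Matrix (Fin 4 ⊕ T) (Fin 4 ⊕ T) F where
  toFun r := Matrix.fromBlocks 0 0 0 r
  map_add' x y := by
    rw [Matrix.fromBlocks_add]; simp
  map_smul' c x := by
    rw [RingHom.id_apply, Matrix.fromBlocks_smul]; simp

lemma emb_apply (r : Matrix T T F) : emb r = Matrix.fromBlocks 0 0 0 r := rfl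

@[simp] lemma emb_inr_inr (r : Matrix T T F) (s t : T) : emb r (Sum.inr s) (Sum.inr t) = r s t := rfl
@[simp] lemma emb_inl_left (r : Matrix T T F) (i : Fin 4) (j : Fin 4 ⊕ T) :
    emb r (Sum.inl i) j = 0 := by
  cases j <;> rfl
@[simp] lemma emb_inl_right (r : Matrix T T F) (i : Fin 4) (j : Fin 4 ⊕ T) :
    emb r j (Sum.inl i) = 0 := by
  cases j <;> rfl

lemma emb_mul_emb (r s : Matrix T T F) : emb r * emb s = emb (r * s) := by
  simp [emb_apply, Matrix.fromBlocks_multiply]

/-- the coefficient of a matrix at the place `(k+1, k)` -/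
def cf (k : Fin 3) : Matrix (Fin 4 ⊕ T) (Fin 4 ⊕ T) F →ₗ[F] F where
  toFun x := x (Sum.inl k.succ) (Sum.inl k.castSucc)
  map_add' x y := rfl
  map_smul' c x := rfl

lemma cf_apply (k : Fin 3) (x : Matrix (Fin 4 ⊕ T) (Fin 4 ⊕ T) F) :
    cf k x = x (Sum.inl k.succ) (Sum.inl k.castSucc) := rfl

/-- the second part of the operator -/
def rho (ρ : Fin 3 → Matrix T T F) :
    Matrix (Fin 4 ⊕ T) (Fin 4 ⊕ T) F →ₗ[F] Matrix (Fin 4 ⊕ T) (Fin 4 ⊕ T) F :=
  ∑ k : Fin 3, (cf k).smulRight (emb (ρ k))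

lemma rho_apply (ρ : Fin 3 → Matrix T T F) (x : Matrix (Fin 4 ⊕ T) (Fin 4 ⊕ T) F) :
    rho ρ x = ∑ k : Fin 3, x (Sum.inl k.succ) (Sum.inl k.castSucc) • emb (ρ k) := by
  simp [rho, cf_apply, LinearMap.sum_apply]

/-- The operator `x ↦ -lam * (lower part of x) + ∑ x_{k+1,k} ρ_k`. -/
def op (lam : F) (ρ : Fin 3 → Matrix T T F) :
    Matrix (Fin 4 ⊕ T) (Fin 4 ⊕ T) F →ₗ[F] Matrix (Fin 4 ⊕ T) (Fin 4 ⊕ T) F :=
  -(lam • low) + rho ρ

lemma op_apply (lam : F) (ρ : Fin 3 → Matrix T T F) (x : Matrix (Fin 4 ⊕ T) (Fin 4 ⊕ T) F) :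
    op lam ρ x = -(lam • low x) + rho ρ x := rfl

lemma key_le (i : Fin 4 ⊕ T) : key i ≤ 4 := by
  rcases i with i | t
  · simp only [key_inl]; omega
  · simp

lemma rho_eq_emb (ρ : Fin 3 → Matrix T T F) (x : Matrix (Fin 4 ⊕ T) (Fin 4 ⊕ T) F) :
    rho ρ x = emb (∑ k : Fin 3, x (Sum.inl k.succ) (Sum.inl k.castSucc) • ρ k) := by
  rw [rho_apply, map_sum]
  simp

lemma rho_mul_rho {ρ : Fin 3 → Matrix T T F} (hρ : ∀ k l, ρ k * ρ l = 0)
    (x y : Matrix (Fin 4 ⊕ T) (Fin 4 ⊕ T) F) : rho ρ x * rho ρ y = 0 := by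
  rw [rho_eq_emb, rho_eq_emb, emb_mul_emb, Finset.sum_mul]
  simp [Finset.mul_sum, hρ]

lemma low_mul_emb (x : Matrix (Fin 4 ⊕ T) (Fin 4 ⊕ T) F) (r : Matrix T T F) :
    low x * emb r = 0 := by
  ext i j
  rw [Matrix.mul_apply, Matrix.zero_apply]
  apply Finset.sum_eq_zero
  intro a _
  rcases a with a | t
  · simp
  · rw [low_apply, if_neg]
    · simp
    · rw [key_inr]; have := key_le i; omega

/-- products of matrices in terms of the lower parts -/
lemma low_upper_mul (x y : Matrix (Fin 4 ⊕ T) (Fin 4 ⊕ T) F)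
    (i j : Fin 4 ⊕ T) (h : key j < key i) :
    ((x - low x) * (y - low y)) i j = 0 := by
  rw [Matrix.mul_apply]
  apply Finset.sum_eq_zero
  intro a _
  rw [Matrix.sub_apply, Matrix.sub_apply, low_apply, low_apply]
  by_cases h1 : key a < key i
  · rw [if_pos h1]; simp
  · rw [if_pos (show key j < key a by omega)]; simp

lemma low_low_mul (x y : Matrix (Fin 4 ⊕ T) (Fin 4 ⊕ T) F)
    (i j : Fin 4 ⊕ T) (h : key i ≤ key j + 1) :
    (low x * low y) i j = 0 := by
  rw [Matrix.mul_apply]
  apply Finset.sum_eq_zero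
  intro a _
  rw [low_apply, low_apply]
  by_cases h1 : key a < key i
  · rw [if_neg (show ¬ key j < key a by omega)]; simp
  · rw [if_neg h1]; simp

lemma low_of_lower {z : Matrix (Fin 4 ⊕ T) (Fin 4 ⊕ T) F}
    (h : ∀ i j, ¬ key j < key i → z i j = 0) : low z = z := by
  ext i j
  rw [low_apply]
  split_ifs with h1
  · rfl
  · rw [h i j h1]

lemma low_of_upper {z : Matrix (Fin 4 ⊕ T) (Fin 4 ⊕ T) F}
    (h : ∀ i j, key j < key i → z i j = 0) : low z = 0 := by
  ext i j
  rw [low_apply]
  split_ifs with h1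
  · rw [h i j h1]; rfl
  · rfl

lemma emb_mul_low (r : Matrix T T F) (y : Matrix (Fin 4 ⊕ T) (Fin 4 ⊕ T) F) :
    low (emb r * y) = emb r * low y := by
  ext i j
  rw [low_apply, Matrix.mul_apply, Matrix.mul_apply]
  rcases i with i | s
  · simp
  · split_ifs with h1
    · apply Finset.sum_congr rfl
      intro a _
      rcases a with a | t
      · simp
      · rw [low_apply, if_pos (by simpa using h1)]
    · symm
      apply Finset.sum_eq_zero
      intro a _
      rcases a with a | t
      · simp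
      · rw [low_apply, if_neg (by simpa using h1)]; simp

lemma mul_emb_low (x : Matrix (Fin 4 ⊕ T) (Fin 4 ⊕ T) F) (r : Matrix T T F) :
    low (x * emb r) = 0 := by
  apply low_of_upper
  intro i j h
  rw [Matrix.mul_apply]
  apply Finset.sum_eq_zero
  intro a _
  rcases j with j | t
  · simp
  · rw [key_inr] at h; have := key_le i; omega

lemma rho_of_zero {ρ : Fin 3 → Matrix T T F} {z : Matrix (Fin 4 ⊕ T) (Fin 4 ⊕ T) F}
    (h : ∀ k : Fin 3, z (Sum.inl k.succ) (Sum.inl k.castSucc) = 0) : rho ρ z = 0 := by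
  rw [rho_apply]
  apply Finset.sum_eq_zero
  intro k _
  rw [h k, zero_smul]

theorem op_isRB (lam : F) {ρ : Fin 3 → Matrix T T F} (hρ : ∀ k l, ρ k * ρ l = 0) :
    IsRB lam (op lam ρ) := by
  intro x y
  -- the argument of the right hand side
  have hz : op lam ρ x * y + x * op lam ρ y + lam • (x * y) =
      lam • ((x - low x) * (y - low y)) - lam • (low x * low y) + rho ρ x * y + x * rho ρ y := by
    simp only [op_apply, add_mul, mul_add, neg_mul, mul_neg, smul_mul_assoc, mul_smul_comm,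
      sub_mul, mul_sub, smul_sub]
    abel
  rw [hz]
  have h1 : low ((x - low x) * (y - low y)) = 0 := low_of_upper (low_upper_mul x y)
  have h2 : low (low x * low y) = low x * low y := by
    apply low_of_lower
    intro i j h
    exact low_low_mul x y i j (by omega)
  have h3 : low (rho ρ x * y) = rho ρ x * low y := by
    rw [rho_eq_emb, emb_mul_low]
  have h4 : low (x * rho ρ y) = 0 := by
    rw [rho_eq_emb ρ y, mul_emb_low]
  have k1 : rho ρ ((x - low x) * (y - low y)) = 0 := by
    apply rho_of_zero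
    intro k
    apply low_upper_mul
    simp
  have k2 : rho ρ (low x * low y) = 0 := by
    apply rho_of_zero
    intro k
    apply low_low_mul
    simp
  have k3 : rho ρ (rho ρ x * y) = 0 := by
    apply rho_of_zero
    intro k
    rw [rho_eq_emb, Matrix.mul_apply]
    apply Finset.sum_eq_zero
    intro a _
    simp
  have k4 : rho ρ (x * rho ρ y) = 0 := by
    apply rho_of_zero
    intro k
    rw [rho_eq_emb, Matrix.mul_apply]
    apply Finset.sum_eq_zero
    intro a _
    simp
  have h5 : low x * rho ρ y = 0 := by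
    rw [rho_eq_emb, low_mul_emb]
  have h6 : rho ρ x * rho ρ y = 0 := rho_mul_rho hρ x y
  rw [op_apply lam ρ x, op_apply lam ρ y, op_apply]
  simp only [map_add, map_sub, map_smul, h1, h2, h3, h4, k1, k2, k3, k4, add_mul, mul_add,
    neg_mul, mul_neg, smul_mul_assoc, mul_smul_comm, h5, h6, smul_zero, smul_sub, smul_add,
    smul_neg]
  abel

theorem op_diagonal (lam : F) (ρ : Fin 3 → Matrix T T F) (d : Fin 4 ⊕ T → F) :
    op lam ρ (Matrix.diagonal d) = 0 := by
  rw [op_apply, low_of_upper, rho_of_zero]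
  · simp
  · intro k
    rw [Matrix.diagonal_apply_ne]
    intro h
    have := congrArg key h
    simp at this
  · intro i j h
    rw [Matrix.diagonal_apply_ne]
    rintro rfl
    exact lt_irrefl _ h

end Family

end Pool.Agent.H26.RB
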