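import Pool.Agent.H26.RB.Wild

/-!
The wild family of diagonal-preserving Rota-Baxter operators in every weight.
-/

set_option linter.unusedSectionVars false
set_option linter.unusedVariables false

namespace Pool.Agent.H26.RB

open Matrix

section Transport

variable {F ι κ : Type*} [Field F] [Fintype ι] [DecidableEq ι] [Fintype κ] [DecidableEq κ]

/-- transport of an operator along a bijection of index sets -/
def tr (e : ι ≃ κ) : (Matrix ι ι F →ₗ[F] Matrix ι ι F) →ₗ[F] (Matrix κ κ F →ₗ[F] Matrix κ κ F) where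
  toFun R := ((Matrix.reindexAlgEquiv F F e).toLinearMap ∘ₗ R) ∘ₗ
    (Matrix.reindexAlgEquiv F F e).symm.toLinearMap
  map_add' R S := by ext; simp
  map_smul' c R := by ext; simp

lemma tr_apply (e : ι ≃ κ) (R : Matrix ι ι F →ₗ[F] Matrix ι ι F) (x : Matrix κ κ F) :
    tr e R x = Matrix.reindexAlgEquiv F F e (R ((Matrix.reindexAlgEquiv F F e).symm x)) := rfl

lemma tr_isRB (e : ι ≃ κ) {lam : F} {R : Matrix ι ι F →ₗ[F] Matrix ι ι F} (h : IsRB lam R) :
    IsRB lam (tr e R) := by
  intro x y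
  obtain ⟨x', rfl⟩ := (Matrix.reindexAlgEquiv F F e).surjective x
  obtain ⟨y', rfl⟩ := (Matrix.reindexAlgEquiv F F e).surjective y
  rw [tr_apply, tr_apply, tr_apply, AlgEquiv.symm_apply_apply, AlgEquiv.symm_apply_apply,
    ← map_mul, h x' y', ← map_mul, ← map_mul, ← map_mul, ← map_smul, ← map_add, ← map_add,
    AlgEquiv.symm_apply_apply]

lemma tr_diag (e : ι ≃ κ) {R : Matrix ι ι F →ₗ[F] Matrix ι ι F} (h : PreservesDiagonal R) :
    PreservesDiagonal (tr e R) := by
  intro d
  obtain ⟨d', hd'⟩ := h (d ∘ e)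
  refine ⟨d' ∘ e.symm, ?_⟩
  rw [tr_apply]
  have h1 : (Matrix.reindexAlgEquiv F F e).symm (Matrix.diagonal d) = Matrix.diagonal (d ∘ e) := by
    ext i j
    simp [Matrix.diagonal_apply, Matrix.reindexAlgEquiv]
  rw [h1, hd']
  ext i j
  simp [Matrix.diagonal_apply, Matrix.reindexAlgEquiv]

lemma tr_equiv (e : ι ≃ κ) {lam : F} {R R' : Matrix ι ι F →ₗ[F] Matrix ι ι F} :
    RBEquivalent lam (tr e R) (tr e R') ↔ RBEquivalent lam R R' := by
  set E := Matrix.reindexAlgEquiv F F e with hE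
  have hE1 : ∀ R : Matrix ι ι F →ₗ[F] Matrix ι ι F, ∀ x, tr e R (E x) = E (R x) := by
    intro R x
    rw [tr_apply, AlgEquiv.symm_apply_apply]
  have hE2 : ∀ R : Matrix ι ι F →ₗ[F] Matrix ι ι F, ∀ y, E.symm (tr e R y) = R (E.symm y) := by
    intro R y
    rw [tr_apply, AlgEquiv.symm_apply_apply]
  constructor
  · rintro ⟨φ, h1, h2⟩
    refine ⟨(E.toLinearEquiv.trans φ).trans E.symm.toLinearEquiv, ?_, ?_⟩
    · rcases h1 with h1 | h1
      · left
        intro x y
        show E.symm (φ (E (x * y))) = E.symm (φ (E x)) * E.symm (φ (E y))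
        rw [map_mul, h1, map_mul]
      · right
        intro x y
        show E.symm (φ (E (x * y))) = E.symm (φ (E y)) * E.symm (φ (E x))
        rw [map_mul, h1, map_mul]
    · rcases h2 with h2 | h2 | ⟨h0, c, hc, h2⟩
      · left
        intro x
        show R' (E.symm (φ (E x))) = E.symm (φ (E (R x)))
        rw [← hE2, h2, hE1]
      · right; left
        intro x
        show R' (E.symm (φ (E x))) = E.symm (φ (E (-(lam • x) - R x)))
        rw [← hE2, h2, hE1]
        simp only [map_sub, map_neg, map_smul]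
      · right; right
        refine ⟨h0, c, hc, ?_⟩
        intro x
        show R' (E.symm (φ (E x))) = c • E.symm (φ (E (R x)))
        rw [← hE2, h2, hE1, map_smul]
  · rintro ⟨φ, h1, h2⟩
    refine ⟨(E.symm.toLinearEquiv.trans φ).trans E.toLinearEquiv, ?_, ?_⟩
    · rcases h1 with h1 | h1
      · left
        intro x y
        show E (φ (E.symm (x * y))) = E (φ (E.symm x)) * E (φ (E.symm y))
        rw [map_mul, h1, map_mul]
      · right
        intro x y
        show E (φ (E.symm (x * y))) = E (φ (E.symm y)) * E (φ (E.symm x))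
        rw [map_mul, h1, map_mul]
    · rcases h2 with h2 | h2 | ⟨h0, c, hc, h2⟩
      · left
        intro x
        show tr e R' (E (φ (E.symm x))) = E (φ (E.symm (tr e R x)))
        rw [hE1, h2, hE2]
      · right; left
        intro x
        show tr e R' (E (φ (E.symm x))) = E (φ (E.symm (-(lam • x) - tr e R x)))
        rw [hE1, h2]
        simp only [map_sub, map_neg, map_smul, hE2]
      · right; right
        refine ⟨h0, c, hc, ?_⟩
        intro x
        show tr e R' (E (φ (E.symm x))) = c • E (φ (E.symm (tr e R x)))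
        rw [hE1, h2, hE2, map_smul]

end Transport

section MainThm

variable {F n : Type*} [Field F] [Fintype n] [DecidableEq n]

/-- equivalent operators have simultaneously similar data -/
theorem equiv_imp [Nonempty n] {lam : F} {X Y X' Y' : Matrix n n F}
    (h : RBEquivalent lam (op lam (rdat X Y)) (op lam (rdat X' Y'))) :
    SimSimilar (X, Y) (X', Y') := by
  obtain ⟨φ, h1, h2⟩ := h
  -- reduce to a scalar c
  have h3 : ∃ c : F, c ≠ 0 ∧ ∀ x, op lam (rdat X' Y') (φ x) = c • φ (op lam (rdat X Y) x) := by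
    rcases h2 with h2 | h2 | ⟨h0, c, hc, h2⟩
    · exact ⟨1, one_ne_zero, fun x => by rw [h2, one_smul]⟩
    · have hφ1 : φ 1 = 1 := by
        obtain ⟨u, hu⟩ := φ.surjective 1
        rcases h1 with h1 | h1
        · have := h1 1 u
          rw [one_mul, hu, mul_one] at this
          exact this.symm
        · have := h1 u 1
          rw [mul_one, hu, mul_one] at this
          exact this.symm
      have h4 := h2 1
      have h5 : ∀ X Y : Matrix n n F, op lam (rdat X Y) 1 = 0 := by
        intro X Y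
        rw [← Matrix.diagonal_one]
        exact op_diagonal _ _ _
      rw [hφ1, h5, h5, sub_zero, map_neg, map_smul, hφ1] at h4
      have h6 : lam = 0 := by
        have := congrFun (congrFun h4 (Sum.inl 0)) (Sum.inl 0)
        simpa using this
      refine ⟨-1, by simp, ?_⟩
      intro x
      rw [h2, h6, zero_smul, neg_zero, zero_sub, map_neg, neg_smul, one_smul]
    · exact ⟨c, hc, h2⟩
  obtain ⟨c, hc, h4⟩ := h3
  apply data_similar
  rcases h1 with h1 | h1
  · obtain ⟨G, H, hGH, hHG, hφ⟩ := hom_inner φ h1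
    have hrel : ∀ x, op lam (rdat X' Y') (G * x * H) = c • (G * op lam (rdat X Y) x * H) := by
      intro x
      rw [← hφ, ← hφ, h4]
    by_cases hlam : lam = 0
    · subst hlam
      exact aut_zero hc (rdat_indep X Y) (rdat_indep X' Y') hGH hHG hrel
    · exact aut_ne_zero hlam hc hGH hHG hrel
  · exfalso
    obtain ⟨G, H, hGH, hHG, hφ⟩ := anti_inner φ h1
    have hrel : ∀ x, op lam (rdat X' Y') (G * xᵀ * H) =
        c • (G * (op lam (rdat X Y) x)ᵀ * H) := by
      intro x
      rw [← hφ, ← hφ, h4]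
    by_cases hlam : lam = 0
    · subst hlam
      exact rank_not_le X Y X' Y' (anti_zero hc (rdat_indep X' Y') hGH hHG hrel)
    · obtain ⟨a⟩ := ‹Nonempty n›
      exact anti_ne_zero hlam hGH hHG hrel (Sum.inl (Sum.inl a)) (Sum.inr (Sum.inl a)) (by simp)

lemma low_fromBlocks {T : Type*} [Fintype T] [DecidableEq T]
    (A : Matrix (Fin 4) (Fin 4) F) (B : Matrix (Fin 4) T F) (C : Matrix T (Fin 4) F)
    (D : Matrix T T F) :
    low (Matrix.fromBlocks A B C D) =
      Matrix.fromBlocks (Matrix.of fun i j => if j.val < i.val then A i j else 0) 0 C 0 := by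
  ext i j
  rcases i with i | s <;> rcases j with j | t
  · simp [low_apply]
  · rw [low_apply, if_neg]
    · simp
    · simp only [key_inr, key_inl]; omega
  · rw [low_apply, if_pos]
    · simp
    · simp
  · rw [low_apply, if_neg]
    · simp
    · simp

/-- simultaneously similar pairs give equivalent operators -/
theorem imp_equiv {lam : F} {X Y X' Y' : Matrix n n F} (h : SimSimilar (X, Y) (X', Y')) :
    RBEquivalent lam (op lam (rdat X Y)) (op lam (rdat X' Y')) := by
  obtain ⟨g, h', hgh, hhg, hX, hY⟩ := h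
  dsimp only at hX hY
  -- the block matrices
  let u : Matrix (n ⊕ n) (n ⊕ n) F := Matrix.fromBlocks g 0 0 g
  let v : Matrix (n ⊕ n) (n ⊕ n) F := Matrix.fromBlocks h' 0 0 h'
  have huv : u * v = 1 := by
    simp [u, v, Matrix.fromBlocks_multiply, hgh, Matrix.fromBlocks_one]
  have hvu : v * u = 1 := by
    simp [u, v, Matrix.fromBlocks_multiply, hhg, Matrix.fromBlocks_one]
  let U : Matrix ((n ⊕ n) ⊕ (n ⊕ n)) ((n ⊕ n) ⊕ (n ⊕ n)) F := Matrix.fromBlocks u 0 0 u
  let V : Matrix ((n ⊕ n) ⊕ (n ⊕ n)) ((n ⊕ n) ⊕ (n ⊕ n)) F := Matrix.fromBlocks v 0 0 v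
  have hUV : U * V = 1 := by
    simp [U, V, Matrix.fromBlocks_multiply, huv, Matrix.fromBlocks_one]
  have hVU : V * U = 1 := by
    simp [U, V, Matrix.fromBlocks_multiply, hvu, Matrix.fromBlocks_one]
  have hdat : ∀ k, u * dat X Y k * v = dat X' Y' k := by
    intro k
    fin_cases k
    · show u * 1 * v = 1
      rw [Matrix.mul_one, huv]
    · show u * Matrix.fromBlocks 1 X 1 Y * v = Matrix.fromBlocks 1 X' 1 Y'
      simp [u, v, Matrix.fromBlocks_multiply, hgh, hX, hY]
    · show u * Matrix.fromBlocks 1 0 0 0 * v = Matrix.fromBlocks 1 0 0 0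
      simp [u, v, Matrix.fromBlocks_multiply, hgh]
  have hrdat : ∀ k, U * rdat X Y k * V = rdat X' Y' k := by
    intro k
    show U * Matrix.fromBlocks 0 0 (dat X Y k) 0 * V = Matrix.fromBlocks 0 0 (dat X' Y' k) 0
    rw [← hdat k]
    simp [U, V, Matrix.fromBlocks_multiply]
  let G : Matrix (Fin 4 ⊕ ((n ⊕ n) ⊕ (n ⊕ n))) (Fin 4 ⊕ ((n ⊕ n) ⊕ (n ⊕ n))) F :=
    Matrix.fromBlocks 1 0 0 U
  let H : Matrix (Fin 4 ⊕ ((n ⊕ n) ⊕ (n ⊕ n))) (Fin 4 ⊕ ((n ⊕ n) ⊕ (n ⊕ n))) F :=
    Matrix.fromBlocks 1 0 0 V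
  have hGH : G * H = 1 := by
    simp [G, H, Matrix.fromBlocks_multiply, hUV, Matrix.fromBlocks_one]
  have hHG : H * G = 1 := by
    simp [G, H, Matrix.fromBlocks_multiply, hVU, Matrix.fromBlocks_one]
  let φ : Matrix (Fin 4 ⊕ ((n ⊕ n) ⊕ (n ⊕ n))) (Fin 4 ⊕ ((n ⊕ n) ⊕ (n ⊕ n))) F ≃ₗ[F]
      Matrix (Fin 4 ⊕ ((n ⊕ n) ⊕ (n ⊕ n))) (Fin 4 ⊕ ((n ⊕ n) ⊕ (n ⊕ n))) F :=
    { toFun := fun x => G * x * H
      invFun := fun x => H * x * G
      map_add' := fun x y => by rw [Matrix.mul_add, Matrix.add_mul]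
      map_smul' := fun c x => by
        rw [RingHom.id_apply, Matrix.mul_smul, Matrix.smul_mul]
      left_inv := fun x => by
        calc H * (G * x * H) * G = (H * G) * x * (H * G) := by simp only [Matrix.mul_assoc]
          _ = x := by rw [hHG, Matrix.one_mul, Matrix.mul_one]
      right_inv := fun x => by
        calc G * (H * x * G) * H = (G * H) * x * (G * H) := by simp only [Matrix.mul_assoc]
          _ = x := by rw [hGH, Matrix.one_mul, Matrix.mul_one] }
  refine ⟨φ, Or.inl ?_, Or.inl ?_⟩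
  · intro x y
    show G * (x * y) * H = G * x * H * (G * y * H)
    calc G * (x * y) * H = G * x * 1 * y * H := by
          rw [Matrix.mul_one]; simp only [Matrix.mul_assoc]
      _ = G * x * (H * G) * y * H := by rw [hHG]
      _ = G * x * H * (G * y * H) := by simp only [Matrix.mul_assoc]
  · intro x
    show op lam (rdat X' Y') (G * x * H) = G * op lam (rdat X Y) x * H
    obtain ⟨A, B, C, D, hx⟩ : ∃ A B C D, x = Matrix.fromBlocks A B C D :=
      ⟨_, _, _, _, (Matrix.fromBlocks_toBlocks x).symm⟩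
    subst hx
    have h1 : G * Matrix.fromBlocks A B C D * H =
        Matrix.fromBlocks A (B * V) (U * C) (U * D * V) := by
      simp [G, H, Matrix.fromBlocks_multiply]
    rw [op_apply, op_apply, h1, low_fromBlocks, low_fromBlocks, Matrix.mul_add, Matrix.add_mul,
      Matrix.mul_neg, Matrix.neg_mul, Matrix.mul_smul, Matrix.smul_mul]
    congr 1
    · congr 2
      simp [G, H, Matrix.fromBlocks_multiply]
    · rw [rho_eq_emb, rho_eq_emb, emb_apply, emb_apply]
      simp only [Matrix.fromBlocks_apply₁₁]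
      have h2 : G * Matrix.fromBlocks 0 0 0 (∑ k : Fin 3, A k.succ k.castSucc • rdat X Y k) * H =
          Matrix.fromBlocks 0 0 0
            (U * (∑ k : Fin 3, A k.succ k.castSucc • rdat X Y k) * V) := by
        simp [G, H, Matrix.fromBlocks_multiply]
      rw [h2, Finset.mul_sum, Finset.sum_mul]
      congr 1
      apply Finset.sum_congr rfl
      intro k _
      rw [Matrix.mul_smul, Matrix.smul_mul, hrdat]

end MainThm

section Affine

variable {F n : Type*} [Field F] [Fintype n] [DecidableEq n]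

/-- the part of the data which depends on the pair -/
def corner : (Matrix n n F × Matrix n n F) →ₗ[F]
    Matrix ((n ⊕ n) ⊕ (n ⊕ n)) ((n ⊕ n) ⊕ (n ⊕ n)) F where
  toFun p := Matrix.fromBlocks 0 0 (Matrix.fromBlocks 0 p.1 0 p.2) 0
  map_add' p q := by
    rw [Matrix.fromBlocks_add, Matrix.fromBlocks_add]
    simp
  map_smul' c p := by
    rw [RingHom.id_apply, Matrix.fromBlocks_smul, Matrix.fromBlocks_smul]
    simp

/-- the dependence on the pair is affine -/
def opAff (lam : F) : (Matrix n n F × Matrix n n F) →ᵃ[F]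
    (Matrix (Fin 4 ⊕ ((n ⊕ n) ⊕ (n ⊕ n))) (Fin 4 ⊕ ((n ⊕ n) ⊕ (n ⊕ n))) F →ₗ[F]
      Matrix (Fin 4 ⊕ ((n ⊕ n) ⊕ (n ⊕ n))) (Fin 4 ⊕ ((n ⊕ n) ⊕ (n ⊕ n))) F) where
  toFun p := op lam (rdat p.1 p.2)
  linear := (LinearMap.smulRightₗ (cf 1)) ∘ₗ (emb ∘ₗ corner)
  map_vadd' := by
    intro p v
    apply LinearMap.ext
    intro x
    have h1 : rdat (v +ᵥ p).1 (v +ᵥ p).2 1 = corner v + rdat p.1 p.2 1 := by
      show Matrix.fromBlocks 0 0 (Matrix.fromBlocks 1 (v.1 + p.1) 1 (v.2 + p.2)) 0 =
        Matrix.fromBlocks 0 0 (Matrix.fromBlocks 0 v.1 0 v.2) 0 +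
          Matrix.fromBlocks 0 0 (Matrix.fromBlocks 1 p.1 1 p.2) 0
      rw [Matrix.fromBlocks_add, Matrix.fromBlocks_add]
      simp
    have h0 : rdat (v +ᵥ p).1 (v +ᵥ p).2 0 = rdat p.1 p.2 0 := rfl
    have h2 : rdat (v +ᵥ p).1 (v +ᵥ p).2 2 = rdat p.1 p.2 2 := rfl
    show op lam (rdat (v +ᵥ p).1 (v +ᵥ p).2) x =
      (cf 1).smulRight (emb (corner v)) x + op lam (rdat p.1 p.2) x
    rw [op_apply, op_apply, rho_apply, rho_apply, Fin.sum_univ_three, Fin.sum_univ_three,
      h0, h1, h2, map_add, smul_add, LinearMap.smulRight_apply, cf_apply]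
    abel

end Affine

/-- For every field `F`, every weight `lam` and every `N ≥ 1` the pairs of `N × N` matrices up to
simultaneous similarity embed, by an affine map, into the diagonal-preserving Rota-Baxter operators
of weight `lam` on `M_{4N+4}(F)` up to equivalence. -/
theorem wild {F : Type*} [Field F] (lam : F) (N : ℕ) (hN : 0 < N) :
    ∃ Φ : (Matrix (Fin N) (Fin N) F × Matrix (Fin N) (Fin N) F) →ᵃ[F]
        (Matrix (Fin (4 * N + 4)) (Fin (4 * N + 4)) F →ₗ[F]
          Matrix (Fin (4 * N + 4)) (Fin (4 * N + 4)) F),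
      (∀ p, IsRB lam (Φ p) ∧ PreservesDiagonal (Φ p) ∧ ∀ d, Φ p (Matrix.diagonal d) = 0) ∧
      ∀ p q, RBEquivalent lam (Φ p) (Φ q) ↔
        ∃ g : (Matrix (Fin N) (Fin N) F)ˣ,
          q.1 = g.val * p.1 * g⁻¹.val ∧ q.2 = g.val * p.2 * g⁻¹.val := by
  have : Nonempty (Fin N) := ⟨⟨0, hN⟩⟩
  have hcard : Fintype.card (Fin 4 ⊕ ((Fin N ⊕ Fin N) ⊕ (Fin N ⊕ Fin N))) =
      Fintype.card (Fin (4 * N + 4)) := by
    simp only [Fintype.card_sum, Fintype.card_fin]
    omega
  let e := Fintype.equivOfCardEq hcard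
  refine ⟨(tr e).toAffineMap.comp (opAff lam), ?_, ?_⟩
  · intro p
    show IsRB lam (tr e (op lam (rdat p.1 p.2))) ∧
      PreservesDiagonal (tr e (op lam (rdat p.1 p.2))) ∧
      ∀ d, tr e (op lam (rdat p.1 p.2)) (Matrix.diagonal d) = 0
    refine ⟨tr_isRB e (op_isRB lam (rdat_mul p.1 p.2)), tr_diag e ?_, ?_⟩
    · intro d
      refine ⟨0, ?_⟩
      rw [op_diagonal]
      exact Matrix.diagonal_zero.symm
    · intro d
      rw [tr_apply]
      have h1 : (Matrix.reindexAlgEquiv F F e).symm (Matrix.diagonal d) =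
          Matrix.diagonal (d ∘ e) := by
        ext i j
        simp [Matrix.diagonal_apply, Matrix.reindexAlgEquiv]
      rw [h1, op_diagonal, map_zero]
  · intro p q
    show RBEquivalent lam (tr e (op lam (rdat p.1 p.2))) (tr e (op lam (rdat q.1 q.2))) ↔ _
    rw [tr_equiv]
    constructor
    · intro h
      obtain ⟨g, h', h1, h2, h3, h4⟩ := equiv_imp h
      exact ⟨⟨g, h', h1, h2⟩, h3, h4⟩
    · rintro ⟨g, h3, h4⟩
      exact imp_equiv ⟨g.val, g⁻¹.val, g.mul_inv, g.inv_mul, h3, h4⟩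

end Pool.Agent.H26.RB
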