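import Pool.Agent.H26.RB.Basic

/-!
Rigidity of the family `op`: equivalent operators have equivalent data.
-/

set_option linter.unusedSectionVars false
set_option linter.unusedVariables false

namespace Pool.Agent.H26.RB

open Matrix

section Rigid

variable {F T : Type*} [Field F] [Fintype T] [DecidableEq T]

lemma conj_single {ι : Type*} [Fintype ι] [DecidableEq ι] (G H : Matrix ι ι F) (i j a b : ι) :
    (G * Matrix.single i j (1 : F) * H) a b = G a i * H j b := by
  rw [Matrix.mul_apply, Finset.sum_eq_single j]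
  · rw [Matrix.mul_apply, Finset.sum_eq_single i]
    · simp
    · intro k _ hk
      rw [Matrix.single_apply_of_ne, mul_zero]
      rintro ⟨h, _⟩
      exact hk h.symm
    · simp
  · intro k _ hk
    rw [Matrix.mul_apply, Finset.sum_eq_zero, zero_mul]
    intro l _
    rw [Matrix.single_apply_of_ne, mul_zero]
    rintro ⟨_, h⟩
    exact hk h.symm
  · simp

lemma op_entry_TT (lam : F) (ρ : Fin 3 → Matrix T T F) (y : Matrix (Fin 4 ⊕ T) (Fin 4 ⊕ T) F)
    (s t : T) : op lam ρ y (Sum.inr s) (Sum.inr t) =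
      ∑ k : Fin 3, y (Sum.inl k.succ) (Sum.inl k.castSucc) * ρ k s t := by
  rw [op_apply, Matrix.add_apply, Matrix.neg_apply, Matrix.smul_apply, low_apply, if_neg (by simp),
    smul_zero, neg_zero, zero_add, rho_eq_emb, emb_inr_inr, Matrix.sum_apply]
  simp

lemma low_eq_zero_of_op {lam : F} (hlam : lam ≠ 0) {ρ : Fin 3 → Matrix T T F}
    {y : Matrix (Fin 4 ⊕ T) (Fin 4 ⊕ T) F} (h : op lam ρ y = 0) (i j : Fin 4 ⊕ T)
    (hij : key j < key i) : y i j = 0 := by
  have h1 := congrFun (congrFun h i) j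
  rw [op_apply, Matrix.add_apply, Matrix.neg_apply, Matrix.smul_apply, low_apply, if_pos hij,
    rho_eq_emb] at h1
  rcases j with j | t
  · rw [emb_inl_right, add_zero] at h1
    simpa [hlam] using h1
  · have := key_le i
    rw [key_inr] at hij
    omega

lemma cf_eq_zero_of_op {ρ : Fin 3 → Matrix T T F} (hρ : LinearIndependent F ρ)
    {y : Matrix (Fin 4 ⊕ T) (Fin 4 ⊕ T) F} (h : op 0 ρ y = 0) (k : Fin 3) :
    y (Sum.inl k.succ) (Sum.inl k.castSucc) = 0 := by
  rw [Fintype.linearIndependent_iff] at hρ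
  apply hρ (fun k => y (Sum.inl k.succ) (Sum.inl k.castSucc)) _ k
  ext s t
  have h1 := congrFun (congrFun h (Sum.inr s)) (Sum.inr t)
  rw [op_entry_TT] at h1
  rw [Matrix.sum_apply]
  simpa using h1

lemma op_of_upper (lam : F) (ρ : Fin 3 → Matrix T T F) {y : Matrix (Fin 4 ⊕ T) (Fin 4 ⊕ T) F}
    (h : ∀ i j, key j < key i → y i j = 0) : op lam ρ y = 0 := by
  rw [op_apply, low_of_upper h, rho_of_zero]
  · simp
  · intro k
    apply h
    simp

lemma op_zero_of_cf (ρ : Fin 3 → Matrix T T F) {y : Matrix (Fin 4 ⊕ T) (Fin 4 ⊕ T) F}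
    (h : ∀ k : Fin 3, y (Sum.inl k.succ) (Sum.inl k.castSucc) = 0) : op 0 ρ y = 0 := by
  rw [op_apply, rho_of_zero h]
  simp

/-- the data extracted from the conjugating matrix -/
lemma extract {lam c : F} (hc : c ≠ 0) {ρ ρ' : Fin 3 → Matrix T T F}
    {G H : Matrix (Fin 4 ⊕ T) (Fin 4 ⊕ T) F} (hGH : G * H = 1)
    (hrel : ∀ x, op lam ρ' (G * x * H) = c • (G * op lam ρ x * H))
    (d1 : ∀ k : Fin 4, G (Sum.inl k) (Sum.inl k) * H (Sum.inl k) (Sum.inl k) = 1)
    (d2 : ∀ s t : T, ∑ i : Fin 4, G (Sum.inr s) (Sum.inl i) * H (Sum.inl i) (Sum.inr t) = 0)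
    (d3 : ∀ j k : Fin 3, j ≠ k →
      G (Sum.inl j.succ) (Sum.inl k.succ) * H (Sum.inl k.castSucc) (Sum.inl j.castSucc) = 0)
    (d4 : ∀ (s : T) (k : Fin 4), lam * G (Sum.inr s) (Sum.inl k) = 0) :
    ∃ GT HT : Matrix T T F, GT * HT = 1 ∧ ∀ k : Fin 3, ∃ s : F, s ≠ 0 ∧
      GT * ρ k * HT = s • ρ' k := by
  refine ⟨G.toBlocks₂₂, H.toBlocks₂₂, ?_, ?_⟩
  · ext s t
    have h1 := congrFun (congrFun hGH (Sum.inr s)) (Sum.inr t)
    rw [Matrix.mul_apply, Fintype.sum_sum_type, d2, zero_add] at h1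
    rw [Matrix.mul_apply]
    simp only [Matrix.toBlocks₂₂, Matrix.of_apply]
    rw [h1]
    simp [Matrix.one_apply]
  · intro k
    refine ⟨c⁻¹ * (G (Sum.inl k.succ) (Sum.inl k.succ) *
      H (Sum.inl k.castSucc) (Sum.inl k.castSucc)), ?_, ?_⟩
    · apply mul_ne_zero (inv_ne_zero hc)
      apply mul_ne_zero
      · intro h0
        have := d1 k.succ
        rw [h0, zero_mul] at this
        exact zero_ne_one this
      · intro h0
        have := d1 k.castSucc
        rw [h0, mul_zero] at this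
        exact zero_ne_one this
    · ext s t
      have h1 := congrFun (congrFun (hrel (Matrix.single (Sum.inl k.succ) (Sum.inl k.castSucc) 1))
        (Sum.inr s)) (Sum.inr t)
      rw [op_entry_TT, Finset.sum_eq_single k] at h1
      · rw [conj_single] at h1
        have hx : op lam ρ (Matrix.single (Sum.inl k.succ) (Sum.inl k.castSucc) 1) =
            -(lam • Matrix.single (Sum.inl k.succ) (Sum.inl k.castSucc) 1) + emb (ρ k) := by
          rw [op_apply, low_of_lower, rho_eq_emb]
          · congr 2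
            rw [Finset.sum_eq_single k]
            · simp
            · intro j _ hj
              rw [Matrix.single_apply_of_ne, zero_smul]
              rintro ⟨h, _⟩
              apply hj
              simpa using h.symm
            · simp
          · intro i j hij
            rw [Matrix.single_apply_of_ne]
            rintro ⟨rfl, rfl⟩
            apply hij
            simp
        rw [hx] at h1
        have h2 : (G * (-(lam • (Matrix.single (Sum.inl k.succ) (Sum.inl k.castSucc) (1 : F) :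
            Matrix (Fin 4 ⊕ T) (Fin 4 ⊕ T) F)) + emb (ρ k)) * H :
            Matrix (Fin 4 ⊕ T) (Fin 4 ⊕ T) F) (Sum.inr s) (Sum.inr t) =
            (G.toBlocks₂₂ * ρ k * H.toBlocks₂₂) s t := by
          rw [Matrix.mul_add, Matrix.add_mul, Matrix.mul_neg, Matrix.neg_mul, Matrix.mul_smul,
            Matrix.smul_mul, Matrix.add_apply, Matrix.neg_apply, Matrix.smul_apply, conj_single,
            smul_eq_mul, ← mul_assoc, d4, zero_mul, neg_zero, zero_add]
          rw [Matrix.mul_apply, Fintype.sum_sum_type, Matrix.mul_apply]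
          have e1 : ∀ i : Fin 4, (G * emb (ρ k)) (Sum.inr s) (Sum.inl i) = 0 := by
            intro i
            rw [Matrix.mul_apply]
            apply Finset.sum_eq_zero
            intro a _
            simp
          simp only [e1, zero_mul, Finset.sum_const_zero, zero_add]
          apply Finset.sum_congr rfl
          intro a _
          congr 1
          rw [Matrix.mul_apply, Fintype.sum_sum_type, Matrix.mul_apply]
          simp [Matrix.toBlocks₂₂]
        rw [Matrix.smul_apply, h2] at h1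
        rw [Matrix.smul_apply, smul_eq_mul, mul_assoc c⁻¹, h1, smul_eq_mul, ← mul_assoc,
          inv_mul_cancel₀ hc, one_mul]
      · intro j _ hj
        rw [conj_single, d3 j k hj, zero_mul]
      · simp

lemma rel_symm {lam c : F} (hc : c ≠ 0) {ρ ρ' : Fin 3 → Matrix T T F}
    {G H : Matrix (Fin 4 ⊕ T) (Fin 4 ⊕ T) F} (hGH : G * H = 1) (hHG : H * G = 1)
    (hrel : ∀ x, op lam ρ' (G * x * H) = c • (G * op lam ρ x * H)) :
    ∀ y, op lam ρ (H * y * G) = c⁻¹ • (H * op lam ρ' y * G) := by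
  intro y
  have h1 := hrel (H * y * G)
  have h2 : G * (H * y * G) * H = y := by
    calc G * (H * y * G) * H = (G * H) * y * (G * H) := by simp only [Matrix.mul_assoc]
      _ = y := by rw [hGH, Matrix.one_mul, Matrix.mul_one]
  rw [h2] at h1
  rw [h1, Matrix.mul_smul, Matrix.smul_mul, smul_smul, inv_mul_cancel₀ hc, one_smul]
  calc op lam ρ (H * y * G) = (H * G) * op lam ρ (H * y * G) * (H * G) := by
        rw [hHG, Matrix.one_mul, Matrix.mul_one]
    _ = _ := by simp only [Matrix.mul_assoc]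

/-- triangularity from the relation -/
lemma upper_of_rel {G H : Matrix (Fin 4 ⊕ T) (Fin 4 ⊕ T) F} (hGH : G * H = 1)
    (h : ∀ a b i j : Fin 4 ⊕ T, key b < key a → key i ≤ key j → G a i * H j b = 0) :
    ∀ (n : ℕ) (i a : Fin 4 ⊕ T), key i = n → key i < key a → G a i = 0 := by
  intro n
  induction n using Nat.strong_induction_on with
  | _ n ih =>
    intro i a hi hia
    by_contra hne
    have h1 := congrFun (congrFun hGH i) i
    rw [Matrix.mul_apply, Matrix.one_apply_eq, Finset.sum_eq_zero] at h1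
    · exact zero_ne_one h1
    · intro j _
      by_cases hj : key i ≤ key j
      · have h2 := h a i i j hia hj
        rcases mul_eq_zero.mp h2 with h3 | h3
        · exact absurd h3 hne
        · rw [h3, mul_zero]
      · push Not at hj
        rw [ih (key j) (by omega) j i rfl hj, zero_mul]

lemma rel_upper {lam c : F} (hlam : lam ≠ 0) {ρ ρ' : Fin 3 → Matrix T T F}
    {G H : Matrix (Fin 4 ⊕ T) (Fin 4 ⊕ T) F} (hGH : G * H = 1)
    (hrel : ∀ x, op lam ρ' (G * x * H) = c • (G * op lam ρ x * H)) :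
    ∀ i a : Fin 4 ⊕ T, key i < key a → G a i = 0 := by
  intro i a hia
  refine upper_of_rel hGH ?_ (key i) i a rfl hia
  intro a b i j hba hij
  have h1 := hrel (Matrix.single i j 1)
  rw [op_of_upper lam ρ (y := Matrix.single i j 1)] at h1
  · rw [Matrix.mul_zero, Matrix.zero_mul, smul_zero] at h1
    have h2 := low_eq_zero_of_op hlam h1 a b hba
    rwa [conj_single] at h2
  · intro p q hpq
    rw [Matrix.single_apply_of_ne]
    rintro ⟨rfl, rfl⟩
    omega

/-- nonzero weight, automorphisms -/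
theorem aut_ne_zero {lam c : F} (hlam : lam ≠ 0) (hc : c ≠ 0) {ρ ρ' : Fin 3 → Matrix T T F}
    {G H : Matrix (Fin 4 ⊕ T) (Fin 4 ⊕ T) F} (hGH : G * H = 1) (hHG : H * G = 1)
    (hrel : ∀ x, op lam ρ' (G * x * H) = c • (G * op lam ρ x * H)) :
    ∃ GT HT : Matrix T T F, GT * HT = 1 ∧ ∀ k : Fin 3, ∃ s : F, s ≠ 0 ∧
      GT * ρ k * HT = s • ρ' k := by
  have hG := rel_upper hlam hGH hrel
  have hH := rel_upper hlam hHG (rel_symm hc hGH hHG hrel)
  apply extract hc hGH hrel
  · intro k
    have h1 := congrFun (congrFun hGH (Sum.inl k)) (Sum.inl k)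
    rw [Matrix.mul_apply, Matrix.one_apply_eq, Finset.sum_eq_single (Sum.inl k)] at h1
    · exact h1
    · intro j _ hj
      rcases lt_trichotomy (key j) k.val with h | h | h
      · rw [hG j (Sum.inl k) (by simpa using h), zero_mul]
      · exfalso
        rcases j with j | t
        · apply hj
          rw [key_inl] at h
          rw [Fin.ext h]
        · rw [key_inr] at h
          omega
      · rw [hH (Sum.inl k) j (by simpa using h), mul_zero]
    · simp
  · intro s t
    apply Finset.sum_eq_zero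
    intro i _
    rw [hG (Sum.inl i) (Sum.inr s) (by simp), zero_mul]
  · intro j k hjk
    rcases lt_or_gt_of_ne hjk with h | h
    · rw [hH (Sum.inl j.castSucc) (Sum.inl k.castSucc) (by simpa using h), mul_zero]
    · rw [hG (Sum.inl k.succ) (Sum.inl j.succ) (by simpa using h), zero_mul]
  · intro s k
    rw [hG (Sum.inl k) (Sum.inr s) (by simp), mul_zero]

/-- a matrix of rank one with small support -/
lemma rank_one_support {ι : Type*} (u v : ι → F) (α β : Fin 3 → ι)
    (hα : Function.Injective α) (hβ : Function.Injective β)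
    (h : ∀ i j, u i * v j ≠ 0 → ∃ m, i = α m ∧ j = β m)
    (hu : ∃ i, u i ≠ 0) (hv : ∃ j, v j ≠ 0) :
    ∃ m, u (α m) ≠ 0 ∧ v (β m) ≠ 0 ∧ (∀ i, i ≠ α m → u i = 0) ∧ (∀ j, j ≠ β m → v j = 0) := by
  obtain ⟨i, hi⟩ := hu
  obtain ⟨j, hj⟩ := hv
  obtain ⟨m, rfl, rfl⟩ := h i j (mul_ne_zero hi hj)
  refine ⟨m, hi, hj, ?_, ?_⟩
  · intro i' hne
    by_contra h0
    obtain ⟨m', h1, h2⟩ := h i' (β m) (mul_ne_zero h0 hj)
    rw [← hβ h2] at h1
    exact hne h1
  · intro j' hne
    by_contra h0
    obtain ⟨m', h1, h2⟩ := h (α m) j' (mul_ne_zero hi h0)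
    rw [← hα h1] at h2
    exact hne h2

lemma row_ne_zero {ι : Type*} [Fintype ι] [DecidableEq ι] {G H : Matrix ι ι F} (hGH : G * H = 1)
    (a : ι) : ∃ i, G a i ≠ 0 := by
  by_contra hne
  push Not at hne
  have h1 := congrFun (congrFun hGH a) a
  rw [Matrix.mul_apply, Matrix.one_apply_eq, Finset.sum_eq_zero] at h1
  · exact zero_ne_one h1
  · intro j _
    rw [hne j, zero_mul]

lemma col_ne_zero {ι : Type*} [Fintype ι] [DecidableEq ι] {G H : Matrix ι ι F} (hGH : G * H = 1)
    (a : ι) : ∃ i, H i a ≠ 0 := by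
  by_contra hne
  push Not at hne
  have h1 := congrFun (congrFun hGH a) a
  rw [Matrix.mul_apply, Matrix.one_apply_eq, Finset.sum_eq_zero] at h1
  · exact zero_ne_one h1
  · intro j _
    rw [hne j, mul_zero]

lemma succ_inj : Function.Injective (fun m : Fin 3 => (Sum.inl m.succ : Fin 4 ⊕ T)) := by
  intro a b h
  simpa using h

lemma castSucc_inj : Function.Injective (fun m : Fin 3 => (Sum.inl m.castSucc : Fin 4 ⊕ T)) := by
  intro a b h
  simpa using h

lemma rel_zero_diag {c : F} {ρ ρ' : Fin 3 → Matrix T T F}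
    (hρ' : LinearIndependent F ρ')
    {G H : Matrix (Fin 4 ⊕ T) (Fin 4 ⊕ T) F} (hGH : G * H = 1)
    (hrel : ∀ x, op 0 ρ' (G * x * H) = c • (G * op 0 ρ x * H)) :
    ∀ k : Fin 3, (∀ i, i ≠ Sum.inl k.succ → G (Sum.inl k.succ) i = 0) ∧
      (∀ j, j ≠ Sum.inl k.castSucc → H j (Sum.inl k.castSucc) = 0) := by
  have hsup : ∀ k : Fin 3, ∀ i j, G (Sum.inl k.succ) i * H j (Sum.inl k.castSucc) ≠ 0 →
      ∃ m : Fin 3, i = (fun m : Fin 3 => (Sum.inl m.succ : Fin 4 ⊕ T)) m ∧
        j = (fun m : Fin 3 => (Sum.inl m.castSucc : Fin 4 ⊕ T)) m := by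
    intro k i j hne
    by_contra hcon
    push Not at hcon
    apply hne
    have h1 := hrel (Matrix.single i j 1)
    rw [op_zero_of_cf ρ (y := Matrix.single i j 1)] at h1
    · rw [Matrix.mul_zero, Matrix.zero_mul, smul_zero] at h1
      have h2 := cf_eq_zero_of_op hρ' h1 k
      rwa [conj_single] at h2
    · intro m
      rw [Matrix.single_apply_of_ne]
      rintro ⟨h2, h3⟩
      exact hcon m h2 h3
  have key1 := fun k : Fin 3 => rank_one_support (G (Sum.inl k.succ))
    (fun j => H j (Sum.inl k.castSucc)) _ _ succ_inj castSucc_inj (hsup k)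
    (row_ne_zero hGH _) (col_ne_zero hGH _)
  choose π hπ1 hπ2 hπ3 hπ4 using key1
  -- the permutation is the identity
  have hprod : ∀ k l : Fin 3, (G * H) (Sum.inl k.succ) (Sum.inl l.castSucc) =
      G (Sum.inl k.succ) (Sum.inl (π k).succ) * H (Sum.inl (π k).succ) (Sum.inl l.castSucc) := by
    intro k l
    rw [Matrix.mul_apply, Finset.sum_eq_single (Sum.inl (π k).succ)]
    · intro i _ hi
      rw [hπ3 k i hi, zero_mul]
    · simp
  have hstep : ∀ k l : Fin 3, k.succ = l.castSucc → (π k).succ = (π l).castSucc := by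
    intro k l hkl
    by_contra hne
    have h1 := hprod k l
    rw [hGH, hkl, Matrix.one_apply_eq, hπ4 l (Sum.inl (π k).succ), mul_zero] at h1
    · exact one_ne_zero h1
    · intro h2
      apply hne
      simpa using h2
  have s01 := congrArg Fin.val (hstep 0 1 rfl)
  have s12 := congrArg Fin.val (hstep 1 2 rfl)
  simp only [Fin.val_succ, Fin.val_castSucc] at s01 s12
  have hid : ∀ k, π k = k := by
    have b2 := (π 2).isLt
    intro k
    apply Fin.ext
    fin_cases k
    · show (π 0).val = 0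
      omega
    · show (π 1).val = 1
      omega
    · show (π 2).val = 2
      omega
  intro k
  constructor
  · intro i hi
    apply hπ3 k i
    rw [hid k]
    exact hi
  · intro j hj
    apply hπ4 k j
    rw [hid k]
    exact hj

/-- weight zero, automorphisms -/
theorem aut_zero {c : F} (hc : c ≠ 0) {ρ ρ' : Fin 3 → Matrix T T F}
    (hρ : LinearIndependent F ρ) (hρ' : LinearIndependent F ρ')
    {G H : Matrix (Fin 4 ⊕ T) (Fin 4 ⊕ T) F} (hGH : G * H = 1) (hHG : H * G = 1)
    (hrel : ∀ x, op 0 ρ' (G * x * H) = c • (G * op 0 ρ x * H)) :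
    ∃ GT HT : Matrix T T F, GT * HT = 1 ∧ ∀ k : Fin 3, ∃ s : F, s ≠ 0 ∧
      GT * ρ k * HT = s • ρ' k := by
  have h1 := rel_zero_diag hρ' hGH hrel
  have h2 := rel_zero_diag hρ hHG (rel_symm hc hGH hHG hrel)
  apply extract hc hGH hrel
  · intro k
    have h3 := congrFun (congrFun hGH (Sum.inl k)) (Sum.inl k)
    rw [Matrix.mul_apply, Matrix.one_apply_eq, Finset.sum_eq_single (Sum.inl k)] at h3
    · exact h3
    · intro j _ hj
      rcases Fin.eq_zero_or_eq_succ k with h0 | ⟨k', h0⟩
      · rw [h0] at hj ⊢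
        have := (h1 0).2 j hj
        rw [show (Sum.inl 0 : Fin 4 ⊕ T) = Sum.inl (Fin.castSucc 0) from rfl, this, mul_zero]
      · rw [h0] at hj ⊢
        rw [(h1 k').1 j hj, zero_mul]
    · simp
  · intro s t
    apply Finset.sum_eq_zero
    intro i _
    rcases Fin.eq_castSucc_or_eq_last i with ⟨i', h0⟩ | h0
    · rw [h0, (h2 i').2 (Sum.inr s) (by simp), zero_mul]
    · rw [h0, show (Sum.inl (Fin.last 3) : Fin 4 ⊕ T) = Sum.inl (Fin.succ 2) from rfl,
        (h2 2).1 (Sum.inr t) (by simp), mul_zero]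
  · intro j k hjk
    rw [(h1 j).1 (Sum.inl k.succ), zero_mul]
    intro h0
    apply hjk
    simpa using h0.symm
  · intro s k
    simp

/-- nonzero weight, anti-automorphisms -/
theorem anti_ne_zero {lam c : F} (hlam : lam ≠ 0) {ρ ρ' : Fin 3 → Matrix T T F}
    {G H : Matrix (Fin 4 ⊕ T) (Fin 4 ⊕ T) F} (hGH : G * H = 1) (hHG : H * G = 1)
    (hrel : ∀ x, op lam ρ' (G * xᵀ * H) = c • (G * (op lam ρ x)ᵀ * H))
    (p q : T) (hpq : p ≠ q) : False := by
  have h0 : ∀ a b i j : Fin 4 ⊕ T, key b < key a → key i ≤ key j → G a j * H i b = 0 := by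
    intro a b i j hba hij
    have h1 := hrel (Matrix.single i j 1)
    rw [op_of_upper lam ρ (y := Matrix.single i j 1)] at h1
    · rw [Matrix.transpose_zero, Matrix.mul_zero, Matrix.zero_mul, smul_zero,
        Matrix.transpose_single] at h1
      have h2 := low_eq_zero_of_op hlam h1 a b hba
      rwa [conj_single] at h2
    · intro p q hpq
      rw [Matrix.single_apply_of_ne]
      rintro ⟨rfl, rfl⟩
      omega
  obtain ⟨i, hi⟩ := col_ne_zero hGH (Sum.inl 0 : Fin 4 ⊕ T)
  have h1 : ∀ (t : T) (a : Fin 4 ⊕ T), a ≠ Sum.inl 0 → G a (Sum.inr t) = 0 := by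
    intro t a ha
    have hka : key (Sum.inl 0 : Fin 4 ⊕ T) < key a := by
      rcases a with a | a
      · rw [key_inl, key_inl]
        have : a ≠ 0 := fun h => ha (by rw [h])
        have := Fin.pos_iff_ne_zero.mpr this
        simpa using this
      · simp
    have h2 := h0 a (Sum.inl 0) i (Sum.inr t) hka (by rw [key_inr]; exact key_le i)
    rcases mul_eq_zero.mp h2 with h3 | h3
    · exact h3
    · exact absurd h3 hi
  have h2 : ∀ s t : T, (H * G) (Sum.inr s) (Sum.inr t) =
      H (Sum.inr s) (Sum.inl 0) * G (Sum.inl 0) (Sum.inr t) := by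
    intro s t
    rw [Matrix.mul_apply, Finset.sum_eq_single (Sum.inl 0)]
    · intro a _ ha
      rw [h1 t a ha, mul_zero]
    · simp
  rw [hHG] at h2
  have e1 := h2 p p
  have e2 := h2 q q
  have e3 := h2 p q
  rw [Matrix.one_apply_eq] at e1 e2
  rw [Matrix.one_apply_ne (by simpa using hpq)] at e3
  rcases mul_eq_zero.mp e3.symm with h3 | h3
  · rw [h3, zero_mul] at e1
    exact one_ne_zero e1
  · rw [h3, mul_zero] at e2
    exact one_ne_zero e2

lemma emb_rank_eq (r : Matrix T T F) : (emb r).rank = r.rank := by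
  let P : Matrix (Fin 4 ⊕ T) T F := Matrix.of fun i t => if i = Sum.inr t then 1 else 0
  have h1 : emb r = P * r * Pᵀ := by
    ext i j
    rcases i with i | s <;> rcases j with j | t <;>
      simp [P, Matrix.mul_apply]
  have h2 : r = Pᵀ * emb r * P := by
    ext s t
    simp [P, Matrix.mul_apply]
  apply le_antisymm
  · calc (emb r).rank = (P * r * Pᵀ).rank := by rw [← h1]
      _ ≤ (P * r).rank := Matrix.rank_mul_le_left _ _
      _ ≤ r.rank := Matrix.rank_mul_le_right _ _
  · calc r.rank = (Pᵀ * emb r * P).rank := by rw [← h2]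
      _ ≤ (Pᵀ * emb r).rank := Matrix.rank_mul_le_left _ _
      _ ≤ (emb r).rank := Matrix.rank_mul_le_right _ _

/-- weight zero, anti-automorphisms -/
theorem anti_zero {c : F} (hc : c ≠ 0) {ρ ρ' : Fin 3 → Matrix T T F}
    (hρ' : LinearIndependent F ρ')
    {G H : Matrix (Fin 4 ⊕ T) (Fin 4 ⊕ T) F} (hGH : G * H = 1) (hHG : H * G = 1)
    (hrel : ∀ x, op 0 ρ' (G * xᵀ * H) = c • (G * (op 0 ρ x)ᵀ * H)) :
    (ρ 0).rank ≤ (ρ' 2).rank := by
  have hsup : ∀ k : Fin 3, ∀ j i, G (Sum.inl k.succ) j * H i (Sum.inl k.castSucc) ≠ 0 →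
      ∃ m : Fin 3, j = (fun m : Fin 3 => (Sum.inl m.castSucc : Fin 4 ⊕ T)) m ∧
        i = (fun m : Fin 3 => (Sum.inl m.succ : Fin 4 ⊕ T)) m := by
    intro k j i hne
    by_contra hcon
    push Not at hcon
    apply hne
    have h1 := hrel (Matrix.single i j 1)
    rw [op_zero_of_cf ρ (y := Matrix.single i j 1)] at h1
    · rw [Matrix.transpose_zero, Matrix.mul_zero, Matrix.zero_mul, smul_zero,
        Matrix.transpose_single] at h1
      have h2 := cf_eq_zero_of_op hρ' h1 k
      rwa [conj_single] at h2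
    · intro m
      rw [Matrix.single_apply_of_ne]
      rintro ⟨h2, h3⟩
      exact hcon m h3 h2
  have key1 := fun k : Fin 3 => rank_one_support (G (Sum.inl k.succ))
    (fun j => H j (Sum.inl k.castSucc)) _ _ castSucc_inj succ_inj (hsup k)
    (row_ne_zero hGH _) (col_ne_zero hGH _)
  choose π hπ1 hπ2 hπ3 hπ4 using key1
  have hprod : ∀ k l : Fin 3, (G * H) (Sum.inl k.succ) (Sum.inl l.castSucc) =
      G (Sum.inl k.succ) (Sum.inl (π k).castSucc) *
        H (Sum.inl (π k).castSucc) (Sum.inl l.castSucc) := by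
    intro k l
    rw [Matrix.mul_apply, Finset.sum_eq_single (Sum.inl (π k).castSucc)]
    · intro i _ hi
      rw [hπ3 k i hi, zero_mul]
    · simp
  have hstep : ∀ k l : Fin 3, k.succ = l.castSucc → (π k).castSucc = (π l).succ := by
    intro k l hkl
    by_contra hne
    have h1 := hprod k l
    rw [hGH, hkl, Matrix.one_apply_eq, hπ4 l (Sum.inl (π k).castSucc), mul_zero] at h1
    · exact one_ne_zero h1
    · intro h2
      apply hne
      simpa using h2
  have s01 := congrArg Fin.val (hstep 0 1 rfl)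
  have s12 := congrArg Fin.val (hstep 1 2 rfl)
  simp only [Fin.val_succ, Fin.val_castSucc] at s01 s12
  have b0 := (π 0).isLt
  have p0 : π 0 = 2 := by apply Fin.ext; show (π 0).val = 2; omega
  have p1 : π 1 = 1 := by apply Fin.ext; show (π 1).val = 1; omega
  have p2 : π 2 = 0 := by apply Fin.ext; show (π 2).val = 0; omega
  -- evaluate at the elementary matrix with indices 1, 0
  have h1 := hrel (Matrix.single (Sum.inl 1) (Sum.inl 0) 1)
  rw [Matrix.transpose_single] at h1
  have hL : op 0 ρ' (G * Matrix.single (Sum.inl 0) (Sum.inl 1) 1 * H) =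
      (G (Sum.inl 3) (Sum.inl 0) * H (Sum.inl 1) (Sum.inl 2)) • emb (ρ' 2) := by
    rw [op_apply, zero_smul, neg_zero, zero_add, rho_apply, Finset.sum_eq_single 2]
    · rw [conj_single]
      rfl
    · intro k _ hk
      rw [conj_single]
      have hne : (Sum.inl 0 : Fin 4 ⊕ T) ≠ Sum.inl (π k).castSucc := by
        intro h2
        apply hk
        have h3 : (0 : Fin 4) = (π k).castSucc := by simpa using h2
        have h4 := congrArg Fin.val h3
        simp only [Fin.val_castSucc] at h4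
        fin_cases k
        · exfalso
          simp [p0] at h4
        · exfalso
          simp [p1] at h4
        · rfl
      rw [hπ3 k _ hne, zero_mul, zero_smul]
    · simp
  have hR : op 0 ρ (Matrix.single (Sum.inl 1) (Sum.inl 0) 1) = emb (ρ 0) := by
    rw [op_apply, zero_smul, neg_zero, zero_add, rho_apply, Finset.sum_eq_single 0]
    · rw [show (Sum.inl (Fin.succ (0 : Fin 3)) : Fin 4 ⊕ T) = Sum.inl 1 from rfl,
        show (Sum.inl (Fin.castSucc (0 : Fin 3)) : Fin 4 ⊕ T) = Sum.inl 0 from rfl,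
        Matrix.single_apply_same, one_smul]
    · intro k _ hk
      rw [Matrix.single_apply_of_ne, zero_smul]
      rintro ⟨_, h2⟩
      apply hk
      have h3 : (0 : Fin 4) = k.castSucc := by simpa using h2
      apply Fin.ext
      have h4 := congrArg Fin.val h3
      simpa using h4.symm
    · simp
  rw [hL, hR] at h1
  obtain ⟨s0, hs⟩ : ∃ s0 : F, (emb (ρ 0))ᵀ = s0 • (H * emb (ρ' 2) * G) := by
    refine ⟨c⁻¹ * (G (Sum.inl 3) (Sum.inl 0) * H (Sum.inl 1) (Sum.inl 2)), ?_⟩
    rw [mul_smul]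
    have h2 : (G (Sum.inl 3) (Sum.inl 0) * H (Sum.inl 1) (Sum.inl 2)) •
        (H * emb (ρ' 2) * G) =
        H * ((G (Sum.inl 3) (Sum.inl 0) * H (Sum.inl 1) (Sum.inl 2)) • emb (ρ' 2)) * G := by
      rw [Matrix.mul_smul, Matrix.smul_mul]
    rw [h2, h1, Matrix.mul_smul, Matrix.smul_mul, smul_smul, inv_mul_cancel₀ hc, one_smul]
    calc (emb (ρ 0))ᵀ = (H * G) * (emb (ρ 0))ᵀ * (H * G) := by
          rw [hHG, Matrix.one_mul, Matrix.mul_one]
      _ = _ := by simp only [Matrix.mul_assoc]
  have hs2 : (emb (ρ 0))ᵀ = H * emb (ρ' 2) * (s0 • G) := by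
    rw [hs, Matrix.mul_smul]
  rw [← emb_rank_eq (ρ 0), ← emb_rank_eq (ρ' 2), ← Matrix.rank_transpose (emb (ρ 0)), hs2]
  exact (Matrix.rank_mul_le_left _ _).trans (Matrix.rank_mul_le_right _ _)

end Rigid

end Pool.Agent.H26.RB
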