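import Pool.Agent.H26.RB.Rigid

/-!
Wildness: pairs of matrices up to simultaneous similarity inside Rota-Baxter operators.
-/

set_option linter.unusedSectionVars false
set_option linter.unusedVariables false

namespace Pool.Agent.H26.RB

open Matrix

section Inner

variable {F ι : Type*} [Field F] [Fintype ι] [DecidableEq ι]

lemma hom_inner (φ : Matrix ι ι F ≃ₗ[F] Matrix ι ι F) (h : ∀ x y, φ (x * y) = φ x * φ y) :
    ∃ G H : Matrix ι ι F, G * H = 1 ∧ H * G = 1 ∧ ∀ x, φ x = G * x * H := by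
  have h1 : φ 1 = 1 := by
    obtain ⟨u, hu⟩ := φ.surjective 1
    have := h 1 u
    rw [one_mul, hu, mul_one] at this
    exact this.symm
  let ψ : Matrix ι ι F ≃ₐ[F] Matrix ι ι F := AlgEquiv.ofLinearEquiv φ h1 h
  let f : Module.End F (ι → F) ≃ₐ[F] Module.End F (ι → F) :=
    ((Matrix.toLinAlgEquiv' (R := F) (n := ι)).symm.trans ψ).trans Matrix.toLinAlgEquiv'
  obtain ⟨S, hS⟩ := f.eq_linearEquivConjAlgEquiv
  refine ⟨LinearMap.toMatrixAlgEquiv' S.toLinearMap, LinearMap.toMatrixAlgEquiv' S.symm.toLinearMap,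
    ?_, ?_, ?_⟩
  · rw [← map_mul]
    have : (S.toLinearMap * S.symm.toLinearMap : Module.End F (ι → F)) = 1 := by
      ext x; simp
    rw [this, map_one]
  · rw [← map_mul]
    have : (S.symm.toLinearMap * S.toLinearMap : Module.End F (ι → F)) = 1 := by
      ext x; simp
    rw [this, map_one]
  · intro x
    have h2 : f (Matrix.toLinAlgEquiv' x) = S.toLinearMap * Matrix.toLinAlgEquiv' x *
        S.symm.toLinearMap := by
      rw [hS]
      rfl
    have h3 : f (Matrix.toLinAlgEquiv' x) = Matrix.toLinAlgEquiv' (φ x) := by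
      show Matrix.toLinAlgEquiv' (ψ ((Matrix.toLinAlgEquiv').symm (Matrix.toLinAlgEquiv' x))) = _
      rw [AlgEquiv.symm_apply_apply]
      rfl
    rw [h3] at h2
    have h4 := congrArg LinearMap.toMatrixAlgEquiv' h2
    rw [map_mul, map_mul] at h4
    simpa using h4

lemma anti_inner (φ : Matrix ι ι F ≃ₗ[F] Matrix ι ι F) (h : ∀ x y, φ (x * y) = φ y * φ x) :
    ∃ G H : Matrix ι ι F, G * H = 1 ∧ H * G = 1 ∧ ∀ x, φ x = G * xᵀ * H := by
  obtain ⟨G, H, h1, h2, h3⟩ := hom_inner ((Matrix.transposeLinearEquiv ι ι F F).trans φ)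
    (by
      intro x y
      show φ (x * y)ᵀ = φ xᵀ * φ yᵀ
      rw [Matrix.transpose_mul, h])
  refine ⟨G, H, h1, h2, ?_⟩
  intro x
  have := h3 xᵀ
  rw [← this]
  show φ x = φ xᵀᵀ
  rw [Matrix.transpose_transpose]

end Inner

section Data

variable {F n : Type*} [Field F] [Fintype n] [DecidableEq n]

/-- the three matrices of size `2N` -/
def dat (X Y : Matrix n n F) : Fin 3 → Matrix (n ⊕ n) (n ⊕ n) F :=
  ![1, Matrix.fromBlocks 1 X 1 Y, Matrix.fromBlocks 1 0 0 0]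

/-- placed in the lower left corner -/
def rdat (X Y : Matrix n n F) (k : Fin 3) :
    Matrix ((n ⊕ n) ⊕ (n ⊕ n)) ((n ⊕ n) ⊕ (n ⊕ n)) F :=
  Matrix.fromBlocks 0 0 (dat X Y k) 0

lemma rdat_mul (X Y : Matrix n n F) (k l : Fin 3) : rdat X Y k * rdat X Y l = 0 := by
  simp [rdat, Matrix.fromBlocks_multiply]

lemma rdat_indep [Nonempty n] (X Y : Matrix n n F) : LinearIndependent F (rdat X Y) := by
  rw [Fintype.linearIndependent_iff]
  intro g hg
  obtain ⟨a⟩ := ‹Nonempty n›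
  have e : ∀ i j, (∑ k : Fin 3, g k • rdat X Y k) i j = 0 := by
    intro i j; rw [hg]; rfl
  have e1 := e (Sum.inr (Sum.inr a)) (Sum.inl (Sum.inl a))
  have e2 := e (Sum.inr (Sum.inr a)) (Sum.inl (Sum.inr a))
  have e3 := e (Sum.inr (Sum.inl a)) (Sum.inl (Sum.inl a))
  simp [Fin.sum_univ_three, rdat, dat, Matrix.add_apply, Matrix.smul_apply] at e1 e2 e3
  rw [e1] at e2 e3
  simp at e2 e3
  rw [e2] at e3
  simp at e3
  intro k
  fin_cases k
  · exact e2
  · exact e1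
  · exact e3

lemma rank_corner (M : Matrix (n ⊕ n) (n ⊕ n) F) :
    (Matrix.fromBlocks 0 0 M 0 : Matrix ((n ⊕ n) ⊕ (n ⊕ n)) ((n ⊕ n) ⊕ (n ⊕ n)) F).rank = M.rank := by
  let P : Matrix ((n ⊕ n) ⊕ (n ⊕ n)) (n ⊕ n) F := Matrix.of fun i t => if i = Sum.inl t then 1 else 0
  let Q : Matrix ((n ⊕ n) ⊕ (n ⊕ n)) (n ⊕ n) F := Matrix.of fun i t => if i = Sum.inr t then 1 else 0
  have h1 : (Matrix.fromBlocks 0 0 M 0 :
      Matrix ((n ⊕ n) ⊕ (n ⊕ n)) ((n ⊕ n) ⊕ (n ⊕ n)) F) = Q * M * Pᵀ := by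
    ext i j
    rcases i with i | s <;> rcases j with j | t <;>
      simp [P, Q, Matrix.mul_apply]
  have h2 : M = Qᵀ * (Matrix.fromBlocks 0 0 M 0 :
      Matrix ((n ⊕ n) ⊕ (n ⊕ n)) ((n ⊕ n) ⊕ (n ⊕ n)) F) * P := by
    ext s t
    simp [P, Q, Matrix.mul_apply]
  apply le_antisymm
  · rw [h1]
    exact (Matrix.rank_mul_le_left _ _).trans (Matrix.rank_mul_le_right _ _)
  · conv_lhs => rw [h2]
    exact (Matrix.rank_mul_le_left _ _).trans (Matrix.rank_mul_le_right _ _)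

lemma rank_not_le [Nonempty n] (X Y X' Y' : Matrix n n F) :
    ¬ (rdat X Y 0).rank ≤ (rdat X' Y' 2).rank := by
  rw [rdat, rdat, rank_corner, rank_corner]
  have h1 : (dat X Y 0) = 1 := rfl
  have h2 : (dat X' Y' 2) = Matrix.fromBlocks 1 0 0 0 := rfl
  rw [h1, h2, Matrix.rank_one]
  let P : Matrix (n ⊕ n) n F := Matrix.of fun i t => if i = Sum.inl t then 1 else 0
  have h3 : (Matrix.fromBlocks 1 0 0 0 : Matrix (n ⊕ n) (n ⊕ n) F) = P * Pᵀ := by
    ext i j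
    rcases i with i | s <;> rcases j with j | t <;>
      simp [P, Matrix.mul_apply, Matrix.one_apply]
  rw [h3]
  intro hle
  have h4 := (hle.trans (Matrix.rank_mul_le_left _ _)).trans (Matrix.rank_le_card_width P)
  rw [Fintype.card_sum] at h4
  have := Fintype.card_pos (α := n)
  omega

/-- the pairs are simultaneously similar -/
def SimSimilar (p q : Matrix n n F × Matrix n n F) : Prop :=
  ∃ g h : Matrix n n F, g * h = 1 ∧ h * g = 1 ∧ q.1 = g * p.1 * h ∧ q.2 = g * p.2 * h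

lemma data_similar [Nonempty n] {X Y X' Y' : Matrix n n F}
    (h : ∃ GT HT : Matrix ((n ⊕ n) ⊕ (n ⊕ n)) ((n ⊕ n) ⊕ (n ⊕ n)) F, GT * HT = 1 ∧
      ∀ k : Fin 3, ∃ s : F, s ≠ 0 ∧ GT * rdat X Y k * HT = s • rdat X' Y' k) :
    SimSimilar (X, Y) (X', Y') := by
  obtain ⟨G, H, hGH, hk⟩ := h
  have hHG : H * G = 1 := mul_eq_one_comm.mp hGH
  -- intertwining relations
  have hk' : ∀ k : Fin 3, ∃ s : F, s ≠ 0 ∧ G * rdat X Y k = s • (rdat X' Y' k * G) := by
    intro k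
    obtain ⟨s, hs, h1⟩ := hk k
    refine ⟨s, hs, ?_⟩
    rw [← Matrix.smul_mul, ← h1, Matrix.mul_assoc, hHG, Matrix.mul_one]
  -- blocks
  obtain ⟨a, b, c, d, hG⟩ : ∃ a b c d, G = Matrix.fromBlocks a b c d :=
    ⟨_, _, _, _, (Matrix.fromBlocks_toBlocks G).symm⟩
  obtain ⟨a', b', c', d', hH⟩ : ∃ a' b' c' d', H = Matrix.fromBlocks a' b' c' d' :=
    ⟨_, _, _, _, (Matrix.fromBlocks_toBlocks H).symm⟩
  subst hG hH
  simp only [rdat, Matrix.fromBlocks_multiply, Matrix.mul_zero, Matrix.zero_mul, add_zero,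
    zero_add, Matrix.fromBlocks_smul, smul_zero, Matrix.fromBlocks_inj] at hk'
  obtain ⟨s0, hs0, h01, -, h02, -⟩ := hk' 0
  obtain ⟨s1, hs1, -, -, h12, -⟩ := hk' 1
  obtain ⟨s2, hs2, -, -, h22, -⟩ := hk' 2
  have hd0 : ∀ X Y : Matrix n n F, dat X Y 0 = 1 := fun _ _ => rfl
  have hd1 : ∀ X Y : Matrix n n F, dat X Y 1 = Matrix.fromBlocks 1 X 1 Y := fun _ _ => rfl
  have hd2 : ∀ X Y : Matrix n n F, dat X Y 2 = Matrix.fromBlocks 1 0 0 0 := fun _ _ => rfl
  rw [hd0, Matrix.mul_one] at h01 h02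
  rw [hd0, Matrix.one_mul] at h02
  rw [hd1, hd1] at h12
  rw [hd2, hd2] at h22
  -- now b = 0 and d = s0 a
  rw [Matrix.fromBlocks_multiply, ← Matrix.fromBlocks_one, Matrix.fromBlocks_inj] at hGH
  obtain ⟨haa, -, -, -⟩ := hGH
  rw [h01, Matrix.zero_mul, add_zero] at haa
  rw [h02] at h12 h22
  obtain ⟨a1, a2, a3, a4, ha⟩ : ∃ a1 a2 a3 a4, a = Matrix.fromBlocks a1 a2 a3 a4 :=
    ⟨_, _, _, _, (Matrix.fromBlocks_toBlocks a).symm⟩
  obtain ⟨b1, b2, b3, b4, hb⟩ : ∃ b1 b2 b3 b4, a' = Matrix.fromBlocks b1 b2 b3 b4 :=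
    ⟨_, _, _, _, (Matrix.fromBlocks_toBlocks a').symm⟩
  subst ha hb
  simp only [Matrix.smul_mul, Matrix.fromBlocks_multiply, Matrix.fromBlocks_smul,
    Matrix.mul_one, Matrix.mul_zero, Matrix.one_mul, Matrix.zero_mul, add_zero,
    smul_zero, Matrix.fromBlocks_inj] at h12 h22
  obtain ⟨k1, k2, k3, -⟩ := h22
  rw [← Matrix.fromBlocks_one, Matrix.fromBlocks_multiply, Matrix.fromBlocks_inj] at haa
  obtain ⟨haa1, -, -, -⟩ := haa
  have ha2 : a2 = 0 := by
    rcases smul_eq_zero.mp k2.symm with h | h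
    · exact absurd h hs2
    · exact h
  have ha3 : a3 = 0 := by
    rcases smul_eq_zero.mp k3 with h | h
    · exact absurd h hs0
    · exact h
  subst ha2 ha3
  rw [Matrix.zero_mul, add_zero] at haa1
  have ha1 : a1 ≠ 0 := by
    intro h0
    rw [h0, Matrix.zero_mul] at haa1
    exact zero_ne_one haa1
  simp only [zero_add, add_zero, Matrix.mul_zero, Matrix.zero_mul, smul_zero] at h12
  obtain ⟨l1, l2, l3, l4⟩ := h12
  have hs01 : s0 = s1 := smul_left_injective F ha1 l1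
  subst hs01
  have ha41 : a4 = a1 := smul_right_injective _ hs0 l3
  subst ha41
  have hX : a4 * X = X' * a4 := smul_right_injective _ hs0 l2
  have hY : a4 * Y = Y' * a4 := smul_right_injective _ hs0 l4
  have hba : b1 * a4 = 1 := mul_eq_one_comm.mp haa1
  refine ⟨a4, b1, haa1, hba, ?_, ?_⟩
  · show X' = a4 * X * b1
    rw [hX, Matrix.mul_assoc, haa1, Matrix.mul_one]
  · show Y' = a4 * Y * b1
    rw [hY, Matrix.mul_assoc, haa1, Matrix.mul_one]

end Data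

end Pool.Agent.H26.RB
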